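import Mathlib

/-!
# A multiset of naturals = a strictly decreasing list + twice a multiset

`exists_strict_add_two`: the values of odd multiplicity, in decreasing order, and half of the rest.
-/

set_option autoImplicit false

namespace Pool.Agent.SFT

/-- Every multiset is a duplicate free multiset plus twice a multiset. -/
theorem exists_nodup_add_two (s : Multiset ℕ) :
    ∃ (d u : Multiset ℕ), d.Nodup ∧ s = d + (u + u) := by
  induction s using Multiset.induction_on with
  | empty => exact ⟨0, 0, Multiset.nodup_zero, by simp⟩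
  | cons a s ih =>
    obtain ⟨d, u, hd, rfl⟩ := ih
    by_cases ha : a ∈ d
    · obtain ⟨d', rfl⟩ := Multiset.exists_cons_of_mem ha
      refine ⟨d', a ::ₘ u, (Multiset.nodup_cons.mp hd).2, ?_⟩
      simp only [Multiset.cons_add, Multiset.add_cons]
    · exact ⟨a ::ₘ d, u, Multiset.nodup_cons.mpr ⟨ha, hd⟩, by simp only [Multiset.cons_add]⟩

/-- Every multiset of naturals is a strictly decreasing list plus twice a multiset. -/
theorem exists_strict_add_two (s : Multiset ℕ) :
    ∃ (v : List ℕ) (u : Multiset ℕ), v.Pairwise (fun a b => b < a) ∧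
      s = (v : Multiset ℕ) + (u + u) ∧ s.card = v.length + 2 * u.card ∧
      (Odd s.card ↔ Odd v.length) := by
  obtain ⟨d, u, hd, hs⟩ := exists_nodup_add_two s
  refine ⟨d.sort (fun a b => b ≤ a), u, ?_, ?_, ?_, ?_⟩
  · have h1 : (d.sort (fun a b => b ≤ a)).Pairwise (fun a b => b ≤ a) :=
      Multiset.pairwise_sort d (fun a b => b ≤ a)
    have h2 : (d.sort (fun a b => b ≤ a)).Nodup := by
      rw [← Multiset.coe_nodup, Multiset.sort_eq]; exact hd
    have h3 : (d.sort (fun a b => b ≤ a)).Pairwise (fun a b => b ≤ a ∧ a ≠ b) :=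
      h1.and h2
    exact h3.imp (fun hab => lt_of_le_of_ne hab.1 (Ne.symm hab.2))
  · rw [Multiset.sort_eq]; exact hs
  · rw [hs]; simp [Multiset.length_sort]; ring
  · rw [hs]
    simp only [Multiset.card_add, Multiset.length_sort]
    constructor
    · intro h
      by_contra h'
      rw [Nat.not_odd_iff_even] at h'
      exact (Nat.not_odd_iff_even.mpr (h'.add (Even.add_self _))) h
    · intro h
      exact h.add_even (Even.add_self _)

end Pool.Agent.SFT
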