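import Pool.Agent.SFT.Two
import Pool.Agent.SFT.CH1

/-!
# Star forests with a two-star and a one-star (MP_fb2988_co): the arrangement of the sizes
-/

set_option autoImplicit false

open Finset

namespace Pool.Agent.SFT

open Pool.Agent.StarF

theorem coe_eq_sum (l : List ℕ) :
    (l : Multiset ℕ) = ∑ j ∈ range l.length, ({l.getD j 0} : Multiset ℕ) := by
  induction l with
  | nil => simp
  | cons a l ih =>
    rw [List.length_cons, sum_range_succ', ← Multiset.cons_coe, ih]
    simp [Multiset.singleton_add, add_comm]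

theorem sum_range_two_mul (g : ℕ → Multiset ℕ) (n : ℕ) :
    ∑ j ∈ range (2 * n), g j = ∑ j ∈ range n, g (2 * j) + ∑ j ∈ range n, g (2 * j + 1) := by
  induction n with
  | zero => simp
  | succ n ih =>
    have e : 2 * (n + 1) = 2 * n + 1 + 1 := by ring
    rw [e, sum_range_succ, sum_range_succ, ih, sum_range_succ, sum_range_succ]
    abel

/-- twice a multiset of positive numbers -/
theorem two_mul_eq_sum (w : Multiset ℕ) (hw : ∀ a ∈ w, 1 ≤ a) :
    ∃ (k : ℕ) (u : ℕ → ℕ), w + w = ∑ c ∈ range k, (({u c + 1} : Multiset ℕ) + {u c + 1}) := by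
  refine ⟨w.toList.length, fun c => w.toList.getD c 0 - 1, ?_⟩
  have h1 : w = ∑ c ∈ range w.toList.length, ({w.toList.getD c 0 - 1 + 1} : Multiset ℕ) := by
    conv_lhs => rw [← Multiset.coe_toList w, coe_eq_sum]
    apply sum_congr rfl
    intro c hc
    rw [mem_range] at hc
    have h2 : w.toList.getD c 0 ∈ w := by
      rw [← Multiset.mem_toList, List.getD_eq_getElem _ _ hc]
      exact List.getElem_mem hc
    have h3 := hw _ h2
    rw [Nat.sub_add_cancel h3]
  rw [sum_add_distrib, ← h1]

theorem case_one_ne {t : ℕ} (m : Fin t → ℕ) (v : List ℕ) (w : Multiset ℕ)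
    (hv : v.Pairwise (fun a b => b < a)) (hv0 : v ≠ []) (hev : Even v.length)
    (hpv : ∀ a ∈ v, 1 ≤ a) (hpw : ∀ a ∈ w, 1 ≤ a)
    (hm : Multiset.map m univ.val = 2 ::ₘ (1 ::ₘ ((v : Multiset ℕ) + (w + w)))) :
    IsSSEM (starForest m) := by
  obtain ⟨n, hn⟩ := hev
  have hn0 : v.length ≠ 0 := by
    intro h
    exact hv0 (List.length_eq_zero_iff.1 h)
  obtain ⟨i, rfl⟩ : ∃ i, n = i + 1 := ⟨n - 1, by omega⟩
  obtain ⟨k, u, hu⟩ := two_mul_eq_sum w hpw
  have hlt : ∀ a b, a < b → b < v.length → v.getD b 0 < v.getD a 0 := by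
    intro a b hab hb
    rw [List.getD_eq_getElem _ _ hb, List.getD_eq_getElem _ _ (hab.trans hb)]
    exact List.pairwise_iff_getElem.1 hv a b (hab.trans hb) hb hab
  have hge : ∀ a, a < v.length → 1 ≤ v.getD a 0 := by
    intro a ha
    rw [List.getD_eq_getElem _ _ ha]
    exact hpv _ (List.getElem_mem ha)
  refine f1_ssem m (fun j => v.getD (2 * j) 0 - 1) (fun j => v.getD (2 * j + 1) 0 - 1) u i k
    (v.getD (2 * i + 1) 0) ?_ ?_ ?_ ?_
  · have := hlt (2 * i) (2 * i + 1) (by omega) (by omega)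
    omega
  · intro j hj
    have := hlt (2 * j + 1) (2 * (j + 1)) (by omega) (by omega)
    omega
  · intro j hj
    have := hlt (2 * j) (2 * (j + 1) + 1) (by omega) (by omega)
    omega
  · rw [hm, hu]
    have e1 : v.length = 2 * (i + 1) := by omega
    have h1 : (v : Multiset ℕ) = {v.getD (2 * i + 1) 0} +
        ∑ j ∈ range (i + 1), ({v.getD (2 * j) 0 - 1 + 1} : Multiset ℕ) +
        ∑ j ∈ range i, ({v.getD (2 * j + 1) 0 - 1 + 1} : Multiset ℕ) := by
      rw [coe_eq_sum v, e1, sum_range_two_mul (fun j => ({v.getD j 0} : Multiset ℕ))]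
      rw [sum_range_succ (fun j => ({v.getD (2 * j + 1) 0} : Multiset ℕ))]
      have s1 : ∑ j ∈ range (i + 1), ({v.getD (2 * j) 0 - 1 + 1} : Multiset ℕ) =
          ∑ j ∈ range (i + 1), ({v.getD (2 * j) 0} : Multiset ℕ) := by
        apply sum_congr rfl
        intro j hj
        rw [mem_range] at hj
        rw [Nat.sub_add_cancel (hge _ (by omega))]
      have s2 : ∑ j ∈ range i, ({v.getD (2 * j + 1) 0 - 1 + 1} : Multiset ℕ) =
          ∑ j ∈ range i, ({v.getD (2 * j + 1) 0} : Multiset ℕ) := by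
        apply sum_congr rfl
        intro j hj
        rw [mem_range] at hj
        rw [Nat.sub_add_cancel (hge _ (by omega))]
      rw [s1, s2]
      abel
    conv_lhs => rw [h1]
    simp only [← Multiset.singleton_add]
    abel

theorem case_one_two {t : ℕ} (m : Fin t → ℕ) (a b : ℕ) (w : Multiset ℕ) (hab : b < a) (hb : 1 ≤ b)
    (hpw : ∀ a ∈ w, 1 ≤ a)
    (hm : Multiset.map m univ.val = 2 ::ₘ (1 ::ₘ ((a ::ₘ b ::ₘ w) + (a ::ₘ b ::ₘ w)))) :
    IsSSEM (starForest m) := by
  obtain ⟨k, u, hu⟩ := two_mul_eq_sum w hpw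
  refine f1_ssem m (fun j => if j = 0 then b - 1 else a - 1) (fun _ => a - 1) u 1 k b ?_ ?_ ?_ ?_
  · simp only [one_ne_zero, if_false]
    omega
  · intro j hj
    have : ¬ (j + 1 = 0) := by omega
    simp only [this, if_false]
    exact le_rfl
  · intro j hj
    omega
  · rw [hm]
    have e1 : ∑ j ∈ range (1 + 1), ({(if j = 0 then b - 1 else a - 1) + 1} : Multiset ℕ) =
        {b} + {a} := by
      rw [sum_range_succ, sum_range_one]
      simp only [if_true, one_ne_zero, if_false]
      rw [Nat.sub_add_cancel hb, Nat.sub_add_cancel (by omega)]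
    have e2 : ∑ _j ∈ range 1, ({a - 1 + 1} : Multiset ℕ) = {a} := by
      rw [sum_range_one, Nat.sub_add_cancel (by omega)]
    rw [e1, e2, ← hu]
    simp only [← Multiset.singleton_add]
    abel

theorem case_one_const {t : ℕ} (m : Fin t → ℕ) (n k : ℕ) (hn : 2 ≤ n)
    (hm : Multiset.map m univ.val = 2 ::ₘ (1 ::ₘ
      (Multiset.replicate (k + 1) n + Multiset.replicate (k + 1) n))) :
    IsSSEM (starForest m) := by
  refine f2_ssem m (fun j => if j = 0 then 1 else n - 2) (fun _ => 0) k 0 (Nat.zero_le _)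
    (fun c h1 h2 => by omega) (fun _ _ => rfl) ?_
  rw [hm]
  have e1 : ∑ j ∈ range (k + 1),
      (({(if j + 1 = 0 then 1 else n - 2) + 0 + 2} : Multiset ℕ) +
        {(if j + 1 = 0 then 1 else n - 2) + 0 + 2}) =
      Multiset.replicate (k + 1) n + Multiset.replicate (k + 1) n := by
    have e2 : ∀ j ∈ range (k + 1),
      (({(if j + 1 = 0 then 1 else n - 2) + 0 + 2} : Multiset ℕ) +
        {(if j + 1 = 0 then 1 else n - 2) + 0 + 2}) = {n} + {n} := by
      intro j _
      have h0 : ¬ (j + 1 = 0) := by omega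
      simp only [h0, if_false]
      have h1 : n - 2 + 0 + 2 = n := by omega
      rw [h1]
    rw [sum_congr rfl e2, sum_const, card_range, smul_add, Multiset.nsmul_singleton]
  simp only [if_true]
  rw [e1]
  simp only [← Multiset.singleton_add]

/-- one star `K_{1,2}`, one star `K_{1,1}` and an even number of other stars, not all `K_{1,1}` -/
theorem case_one {t : ℕ} (m : Fin t → ℕ) (s : Multiset ℕ) (hpos : ∀ a ∈ s, 1 ≤ a)
    (hcard : Even s.card) (hne : ∃ a ∈ s, a ≠ 1)
    (hm : Multiset.map m univ.val = 2 ::ₘ (1 ::ₘ s)) : IsSSEM (starForest m) := by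
  obtain ⟨v, w, hv, hs, hc, -⟩ := exists_strict_add_two s
  have hev : Even v.length := by
    have h1 : Even (2 * w.card) := even_two_mul _
    rw [hc] at hcard
    exact (Nat.even_add.1 hcard).2 h1
  have hpw : ∀ a ∈ w, 1 ≤ a := by
    intro a ha
    apply hpos
    rw [hs]
    exact Multiset.mem_add.2 (Or.inr (Multiset.mem_add.2 (Or.inl ha)))
  by_cases hv0 : v = []
  · subst hv0
    rw [Multiset.coe_nil, zero_add] at hs
    obtain ⟨a, ha, ha1⟩ := hne
    rw [hs, Multiset.mem_add, or_self] at ha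
    by_cases hall : ∀ b ∈ w, b = a
    · have hw : w = Multiset.replicate w.card a := Multiset.eq_replicate_card.2 hall
      have hw0 : w.card ≠ 0 := by
        intro h
        rw [Multiset.card_eq_zero] at h
        rw [h] at ha
        exact Multiset.notMem_zero _ ha
      obtain ⟨k, hk⟩ : ∃ k, w.card = k + 1 := ⟨w.card - 1, by omega⟩
      rw [hk] at hw
      refine case_one_const m a k ?_ ?_
      · have := hpw a ha
        omega
      · rw [hm, hs, hw]
    · push Not at hall
      obtain ⟨b, hb, hba⟩ := hall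
      obtain ⟨w', rfl⟩ := Multiset.exists_cons_of_mem ha
      have hb' : b ∈ w' := by
        rcases Multiset.mem_cons.1 hb with h | h
        · exact absurd h hba
        · exact h
      obtain ⟨w'', rfl⟩ := Multiset.exists_cons_of_mem hb'
      have hpw'' : ∀ c ∈ w'', 1 ≤ c := fun c hc =>
        hpw c (Multiset.mem_cons_of_mem (Multiset.mem_cons_of_mem hc))
      rcases lt_or_gt_of_ne hba with h | h
      · exact case_one_two m a b w'' h (hpw b hb) hpw'' (by rw [hm, hs])
      · exact case_one_two m b a w'' h (hpw a ha) hpw'' (by rw [hm, hs, Multiset.cons_swap a b])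
  · refine case_one_ne m v w hv hv0 hev ?_ hpw (by rw [hm, hs])
    intro a ha
    apply hpos
    rw [hs]
    exact Multiset.mem_add.2 (Or.inl (Multiset.mem_coe.2 ha))

end Pool.Agent.SFT
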