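import Pool.Agent.SFT.CaseTwo
import Pool.Agent.SFT.CaseOne

/-!
# Star forests with an even number of components, one of them a two-star (MP_fb2988_co)
-/

set_option autoImplicit false

open Finset

namespace Pool.Agent.SFT

open Pool.Agent.StarF

/-- An even number `2h + 2 ≥ 4` of stars, one of them `K_{1,2}`, not all others `K_{1,1}`. -/
theorem even_two {h : ℕ} (hh : 1 ≤ h) (m : Fin (2 * h + 2) → ℕ) (hm : ∀ i, 1 ≤ m i)
    (i₀ : Fin (2 * h + 2)) (h2 : m i₀ = 2) (hex : ∃ i, i ≠ i₀ ∧ m i ≠ 1) :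
    IsSSEM (starForest m) := by
  obtain ⟨s, hs⟩ : ∃ s : Multiset ℕ, s = Multiset.map m (univ.erase i₀).val := ⟨_, rfl⟩
  have e1 : Multiset.map m univ.val = 2 ::ₘ s := by
    have h3 : (univ : Finset (Fin (2 * h + 2))) = insert i₀ (univ.erase i₀) :=
      (insert_erase (mem_univ i₀)).symm
    rw [h3, insert_val_of_notMem (notMem_erase i₀ univ), Multiset.map_cons, h2, hs]
  have e2 : s.card = 2 * h + 1 := by
    rw [hs, Multiset.card_map, card_val, card_erase_of_mem (mem_univ i₀), card_univ,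
      Fintype.card_fin]
    omega
  have e3 : ∀ a ∈ s, 1 ≤ a := by
    intro a ha
    rw [hs, Multiset.mem_map] at ha
    obtain ⟨i, -, rfl⟩ := ha
    exact hm i
  have e4 : ∃ a ∈ s, a ≠ 1 := by
    obtain ⟨i, h3, h4⟩ := hex
    refine ⟨m i, ?_, h4⟩
    rw [hs, Multiset.mem_map]
    exact ⟨i, mem_erase.2 ⟨h3, mem_univ i⟩, rfl⟩
  by_cases h1 : 1 ∈ s
  · obtain ⟨s', rfl⟩ := Multiset.exists_cons_of_mem h1
    rw [Multiset.card_cons] at e2
    refine case_one m s' (fun a ha => e3 a (Multiset.mem_cons_of_mem ha)) ⟨h, by omega⟩ ?_ e1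
    obtain ⟨a, ha, ha1⟩ := e4
    rcases Multiset.mem_cons.1 ha with h5 | h5
    · exact absurd h5 ha1
    · exact ⟨a, h5, ha1⟩
  · refine case_two m s (fun a ha => ?_) ⟨h, e2⟩ (by omega) e1
    have h3 := e3 a ha
    have h4 : a ≠ 1 := fun h => h1 (h ▸ ha)
    omega

end Pool.Agent.SFT
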