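import Pool.Agent.SFT.Two
import Pool.Agent.SFT.CH1

/-!
# Star forests with a two-star (MP_fb2988_co): all other sizes at least two
-/

set_option autoImplicit false

open Finset

namespace Pool.Agent.SFT

open Pool.Agent.StarF

theorem sum_getD (v : List ℕ) :
    ∑ j ∈ range v.length, ({v.getD j 0} : Multiset ℕ) = (v : Multiset ℕ) := by
  induction v with
  | nil => simp
  | cons a v ih =>
    rw [List.length_cons, sum_range_succ']
    simp only [List.getD_cons_succ, List.getD_cons_zero]
    rw [ih, add_comm, Multiset.singleton_add, Multiset.cons_coe]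

theorem sum_odd (V : ℕ → ℕ) (l : ℕ) : ∑ j ∈ range (2 * l + 1), ({V j} : Multiset ℕ) =
    {V 0} + ∑ j ∈ range l, (({V (2 * j + 1)} : Multiset ℕ) + {V (2 * j + 2)}) := by
  induction l with
  | zero => simp
  | succ l ih =>
    rw [show 2 * (l + 1) + 1 = (2 * l + 1) + 1 + 1 by ring, sum_range_succ, sum_range_succ, ih,
      sum_range_succ, add_assoc, add_assoc, show 2 * l + 1 + 1 = 2 * l + 2 by ring]

theorem getD_lt {v : List ℕ} (hv : v.Pairwise (fun a b => b < a)) {i j : ℕ} (hij : i < j)
    (hj : j < v.length) : v.getD j 0 < v.getD i 0 := by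
  rw [List.getD_eq_getElem _ _ hj, List.getD_eq_getElem _ _ (hij.trans hj)]
  exact List.pairwise_iff_getElem.1 hv i j (hij.trans hj) hj hij

theorem getD_mem {v : List ℕ} {j : ℕ} (hj : j < v.length) : v.getD j 0 ∈ v := by
  rw [List.getD_eq_getElem _ _ hj]
  exact List.getElem_mem hj

theorem case_two {t : ℕ} (m : Fin t → ℕ) (s : Multiset ℕ) (hpos : ∀ a ∈ s, 2 ≤ a)
    (hcard : Odd s.card) (h3 : 3 ≤ s.card) (hm : Multiset.map m univ.val = 2 ::ₘ s) :
    IsSSEM (starForest m) := by
  obtain ⟨v, w, hv, hs, hc, ho⟩ := exists_strict_add_two s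
  obtain ⟨l, hl⟩ := ho.1 hcard
  set V : ℕ → ℕ := fun j => v.getD j 0 with hV
  obtain ⟨W, rfl⟩ : ∃ W : List ℕ, w = (W : Multiset ℕ) := ⟨w.toList, (Multiset.coe_toList w).symm⟩
  rw [Multiset.coe_card] at hc
  set Q : ℕ → ℕ := fun j => W.getD j 0 with hQ
  have hVpos : ∀ j, j < 2 * l + 1 → 2 ≤ V j := by
    intro j hj
    apply hpos
    rw [hs, Multiset.mem_add]
    left
    exact Multiset.mem_coe.2 (getD_mem (by omega))
  have hQpos : ∀ j, j < W.length → 2 ≤ Q j := by
    intro j hj
    apply hpos
    rw [hs, Multiset.mem_add, Multiset.mem_add]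
    right; left
    exact Multiset.mem_coe.2 (getD_mem hj)
  have hVlt : ∀ i j, i < j → j < 2 * l + 1 → V j < V i := fun i j h1 h2 =>
    getD_lt hv h1 (by omega)
  set x : ℕ → ℕ := fun j => if j = 0 then V 0 else V (2 * j) - 2 with hx
  set y : ℕ → ℕ := fun j => V (2 * j + 1) - 2 with hy
  have hxs : ∀ j, x (j + 1) = V (2 * j + 2) - 2 := by
    intro j
    rw [hx]
    simp only
    rw [if_neg (by omega), show 2 * (j + 1) = 2 * j + 2 by ring]
  have hx0 : x 0 = V 0 := by
    rw [hx]; simp
  have hxy : ∀ j, j < l → x (j + 1) < y j := by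
    intro j hj
    rw [hxs]
    have h1 := hVlt (2 * j + 1) (2 * j + 2) (by omega) (by omega)
    have h2 := hVpos (2 * j + 2) (by omega)
    show V (2 * j + 2) - 2 < V (2 * j + 1) - 2
    omega
  have hyx : ∀ j, j + 1 < l → y (j + 1) ≤ x j := by
    intro j hj
    show V (2 * (j + 1) + 1) - 2 ≤ x j
    rcases Nat.eq_zero_or_pos j with h | h
    · subst h
      rw [hx0]
      have := hVlt 0 (2 * (0 + 1) + 1) (by omega) (by omega)
      omega
    · obtain ⟨j, rfl⟩ : ∃ j', j = j' + 1 := ⟨j - 1, by omega⟩
      rw [hxs]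
      have := hVlt (2 * j + 2) (2 * (j + 1 + 1) + 1) (by omega) (by omega)
      omega
  obtain ⟨L, R, hL, hR, hLR⟩ := ladder x y l (x l) 0
    (fun j hj => by
      have := hxy j (by omega)
      rw [hj] at this
      omega)
    (fun j hj => ⟨(hxy j (by omega)).le, hyx j hj⟩)
  have hR1 : ∀ j, j < l → 1 ≤ R j := by
    intro j hj
    have h1 := hxy j hj
    have h2 := (hLR j hj).2
    have h4 : L (j + 1) ≤ x (j + 1) := by
      by_cases h : j + 1 = l
      · rw [h, hL]
      · have := (hLR (j + 1) (by omega)).1
        omega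
    omega
  have hlc : l + W.length = (l + W.length - 1) + 1 := by omega
  refine f2_ssem m (fun c => if c ≤ l then L c else Q (c - l - 1) - 2)
    (fun c => if c < l then R c else 0) (l + W.length - 1) (l - 1) (by omega) ?_ ?_ ?_
  · intro c h1 h2
    rw [if_pos (by omega)]
    exact hR1 c (by omega)
  · intro c h1
    rw [if_neg (by omega)]
  · rw [hm, hs, ← hlc, sum_range_add]
    congr 1
    have e1 : ∀ j ∈ range l,
        (({(if j + 1 ≤ l then L (j + 1) else Q (j + 1 - l - 1) - 2) +
          (if j < l then R j else 0) + 2} : Multiset ℕ) +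
          {(if j + 1 ≤ l then L (j + 1) else Q (j + 1 - l - 1) - 2) +
            (if j + 2 < l then R (j + 2) else 0) + 2}) =
        ({V (2 * j + 1)} : Multiset ℕ) + {V (2 * j + 2)} := by
      intro j hj
      rw [mem_range] at hj
      rw [if_pos (by omega), if_pos hj]
      have h1 := (hLR j hj).2
      have h2 := hVpos (2 * j + 1) (by omega)
      have h3 := hVpos (2 * j + 2) (by omega)
      have h4 : L (j + 1) + R j + 2 = V (2 * j + 1) := by
        rw [h1]
        show V (2 * j + 1) - 2 + 2 = V (2 * j + 1)
        omega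
      have h5 : L (j + 1) + (if j + 2 < l then R (j + 2) else 0) + 2 = V (2 * j + 2) := by
        have h6 := hxs j
        by_cases h : j + 1 = l
        · rw [if_neg (by omega)]
          have h7 : L (j + 1) = x (j + 1) := by rw [h, hL]
          omega
        · have h7 := (hLR (j + 1) (by omega)).1
          have h10 : R (j + 1 + 1) = R (j + 2) := rfl
          by_cases h8 : j + 2 < l
          · rw [if_pos h8]
            omega
          · have h9 : R (j + 1 + 1) = 0 := by
              have : j + 1 + 1 = l := by omega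
              rw [this, hR]
            rw [if_neg h8]
            omega
      rw [h4, h5]
    have e2 : ∀ c ∈ range W.length,
        (({(if l + c + 1 ≤ l then L (l + c + 1) else Q (l + c + 1 - l - 1) - 2) +
          (if l + c < l then R (l + c) else 0) + 2} : Multiset ℕ) +
          {(if l + c + 1 ≤ l then L (l + c + 1) else Q (l + c + 1 - l - 1) - 2) +
            (if l + c + 2 < l then R (l + c + 2) else 0) + 2}) =
        ({Q c} : Multiset ℕ) + {Q c} := by
      intro c hc
      rw [mem_range] at hc
      rw [if_neg (by omega), if_neg (by omega), if_neg (by omega),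
        show l + c + 1 - l - 1 = c by omega]
      have h2 := hQpos c hc
      have h3 : Q c - 2 + 0 + 2 = Q c := by omega
      rw [h3]
    rw [sum_congr rfl e1, sum_congr rfl e2, sum_add_distrib (s := range W.length), ← add_assoc]
    have e3 : ({(if 0 ≤ l then L 0 else Q (0 - l - 1) - 2) + (if 1 < l then R 1 else 0)} :
        Multiset ℕ) = {V 0} := by
      rw [if_pos (by omega)]
      congr 1
      rw [← hx0]
      rcases Nat.eq_zero_or_pos l with h | h
      · subst h
        rw [if_neg (by omega), hL, add_zero]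
      · have h7 := (hLR 0 h).1
        by_cases h8 : 1 < l
        · rw [if_pos h8]
          omega
        · have h9 : R (0 + 1) = 0 := by
            have : 0 + 1 = l := by omega
            rw [this, hR]
          rw [if_neg h8]
          omega
    rw [e3, add_assoc, ← add_assoc ({V 0} : Multiset ℕ), ← sum_odd V l, ← hl]
    have e4 := sum_getD v
    have e5 := sum_getD W
    rw [← e4, ← e5]
end Pool.Agent.SFT
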