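import Pool.Agent.SFT.Tr

/-!
# Star forests with a two-star: how often a row occurs (MP_fb2988_co)
-/

set_option autoImplicit false

namespace Pool.Agent.SFT

theorem count_lp (k : ℕ) (c x : ℤ) (hc : c ≠ 0) :
    (lp k c).count x = if x = c ∨ x = -c then k else 0 := by
  induction k with
  | zero => simp [lp]
  | succ k ih =>
    have h : lp (k + 1) c = [c] ++ ([-c] ++ lp k c) := by
      rw [lp, List.replicate_succ, List.flatten_cons]
      rfl
    rw [h, List.count_append, List.count_append, ih]
    simp only [List.count_singleton, beq_iff_eq]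
    split_ifs <;> omega

theorem count_upw (L : ℕ → ℕ) (a n : ℕ) (x : ℤ) :
    (upw L a n).count x =
      if (a : ℤ) < x ∧ x ≤ (a : ℤ) + n then L x.toNat + 1
      else if (a : ℤ) < -x ∧ -x ≤ (a : ℤ) + n then L (-x).toNat else 0 := by
  induction n with
  | zero =>
    have h1 : ¬ ((a : ℤ) < x ∧ x ≤ (a : ℤ) + (0 : ℕ)) := by push_cast; omega
    have h2 : ¬ ((a : ℤ) < -x ∧ -x ≤ (a : ℤ) + (0 : ℕ)) := by push_cast; omega
    rw [if_neg h1, if_neg h2]
    rfl
  | succ n ih =>
    have e1 : x = (a : ℤ) + n + 1 → L x.toNat = L (a + n + 1) := by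
      intro h; congr 1; omega
    have e2 : -x = (a : ℤ) + n + 1 → L (-x).toNat = L (a + n + 1) := by
      intro h; congr 1; omega
    rw [upw, List.count_append, List.count_append, ih, count_lp _ _ _ (by positivity)]
    simp only [List.count_singleton, beq_iff_eq]
    push_cast
    split_ifs <;> omega

theorem count_dnw (R : ℕ → ℕ) (a n : ℕ) (x : ℤ) :
    (dnw R a n).count x =
      if (a : ℤ) < x ∧ x ≤ (a : ℤ) + n then R x.toNat
      else if (a : ℤ) < -x ∧ -x ≤ (a : ℤ) + n then R (-x).toNat + 1 else 0 := by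
  induction n with
  | zero =>
    have h1 : ¬ ((a : ℤ) < x ∧ x ≤ (a : ℤ) + (0 : ℕ)) := by push_cast; omega
    have h2 : ¬ ((a : ℤ) < -x ∧ -x ≤ (a : ℤ) + (0 : ℕ)) := by push_cast; omega
    rw [if_neg h1, if_neg h2]
    rfl
  | succ n ih =>
    have e1 : x = (a : ℤ) + n + 1 → R x.toNat = R (a + n + 1) := by
      intro h; congr 1; omega
    have e2 : -x = (a : ℤ) + n + 1 → R (-x).toNat = R (a + n + 1) := by
      intro h; congr 1; omega
    rw [dnw, List.count_append, List.count_append, ih, count_lp _ _ _ (by positivity)]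
    simp only [List.count_singleton, beq_iff_eq]
    push_cast
    split_ifs <;> omega

theorem count_map_add (w : List ℤ) (x : ℤ) : (w.map (· + 1)).count x = w.count (x - 1) := by
  have h : x = (x - 1) + 1 := by ring
  conv_lhs => rw [h]
  exact List.count_map_of_injective w (· + 1) (add_left_injective 1) (x - 1)

theorem count_rep (k : ℕ) (c x : ℤ) : (List.replicate k c).count x = if x = c then k else 0 := by
  rw [List.count_replicate]
  simp only [beq_iff_eq]
  split_ifs <;> simp_all

end Pool.Agent.SFT
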