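import Pool.Agent.SFT.Lad

/-!
# Star forests with a two-star and a one-star (MP_fb2988_co): the words of type F1
-/

set_option autoImplicit false

open Finset

namespace Pool.Agent.SFT

/-- left word -/
def fl (L : ℕ → ℕ) (i : ℕ) : List ℤ := List.replicate (L 0) 0 ++ upw L 0 i

/-- right word, in the frame of the right side -/
def fr (R v : ℕ → ℕ) (i k : ℕ) : List ℤ :=
  upw v (i + 2) k ++ (dnw (fun _ => 0) (i + 2) k ++ (dnw R 0 (i + 2) ++ List.replicate (R 0) 0))

theorem fl_tr (L : ℕ → ℕ) (i : ℕ) : Tr (fl L i) (D 0) (D i) := by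
  have h1 := Tr.stays (L 0)
  have h2 := Tr.upw L 0 i
  simp only [Nat.cast_zero, zero_add] at h2
  exact h1.append h2

theorem fr_tr (R v : ℕ → ℕ) (i k : ℕ) : Tr (fr R v i k) (D ((i : ℤ) + 2)) (D 0) := by
  have h1 := Tr.upw v (i + 2) k
  have h2 := Tr.dnw (fun _ => 0) (i + 2) k
  have h3 := Tr.dnw R 0 (i + 2)
  have h4 := Tr.stays (R 0)
  simp only [zero_add] at h3
  have h5 := h1.append (h2.append (h3.append h4))
  have e : ((i + 2 : ℕ) : ℤ) = (i : ℤ) + 2 := by push_cast; ring
  rw [e] at h5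
  exact h5

theorem fl_count (L : ℕ → ℕ) (i : ℕ) (r : ℤ) : (fl L i).count r =
    if r = 0 then L 0 else if 0 < r ∧ r ≤ i then L r.toNat + 1
      else if 0 < -r ∧ -r ≤ i then L (-r).toNat else 0 := by
  rw [fl, List.count_append, count_rep, count_upw]
  simp only [Nat.cast_zero, zero_add]
  split_ifs <;> omega

theorem fr_count (R v : ℕ → ℕ) (i k : ℕ) (r : ℤ) : (fr R v i k).count r =
    if r = 0 then R 0 else if 0 < r ∧ r ≤ i + 2 then R r.toNat
      else if 0 < -r ∧ -r ≤ i + 2 then R (-r).toNat + 1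
      else if (i : ℤ) + 2 < r ∧ r ≤ i + 2 + k then v r.toNat + 1
      else if (i : ℤ) + 2 < -r ∧ -r ≤ i + 2 + k then v (-r).toNat + 1 else 0 := by
  rw [fr, List.count_append, List.count_append, List.count_append, count_rep, count_upw, count_dnw,
    count_dnw]
  push_cast
  simp only [zero_add]
  split_ifs <;> omega

/-- all entries of the words are allowed rows -/
theorem f1_mem (L R v : ℕ → ℕ) (i k : ℕ) (hR : R i = 0) (hR' : R (i + 2) = 0) (r : ℤ)
    (hr : r ∈ fl L i ++ (fr R v i k).map (· + 1)) :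
    -((i : ℤ) + 1 + k) ≤ r ∧ r ≤ (i : ℤ) + 3 + k ∧ r ≠ (i : ℤ) + 1 ∧ r ≠ (i : ℤ) + 3 := by
  have h1 : 0 < (fl L i ++ (fr R v i k).map (· + 1)).count r := List.count_pos_iff.2 hr
  rw [List.count_append, count_map_add, fl_count, fr_count] at h1
  have e1 : r = (i : ℤ) + 1 → R (r - 1).toNat = 0 := by
    intro h
    have : (r - 1).toNat = i := by omega
    rw [this, hR]
  have e2 : r = (i : ℤ) + 3 → R (r - 1).toNat = 0 := by
    intro h
    have : (r - 1).toNat = i + 2 := by omega
    rw [this, hR']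
  have e3 : r = (i : ℤ) + 1 → i = 0 → R 0 = 0 := by
    intro h h'
    subst h'
    exact hR
  refine ⟨?_, ?_, ?_, ?_⟩
  · by_contra h
    split_ifs at h1 <;> omega
  · by_contra h
    split_ifs at h1 <;> omega
  · intro h
    have := e1 h
    by_cases hi : i = 0
    · have := e3 h hi
      split_ifs at h1 <;> omega
    · split_ifs at h1 <;> omega
  · intro h
    have := e2 h
    split_ifs at h1 <;> omega

/-- the multiset of the numbers of uses -/
theorem f1_sizes (L R v x y : ℕ → ℕ) (i k z : ℕ) (hz : R (i + 1) = z) (hR : R i = 0)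
    (hR' : R (i + 2) = 0) (hx : ∀ j, j ≤ i → L j + R (j + 1) = x j)
    (hy : ∀ j, j < i → L (j + 1) + R j = y j) :
    Multiset.map (fun r => (fl L i ++ (fr R v i k).map (· + 1)).count r)
      (Icc (-((i : ℤ) + 1 + k)) ((i : ℤ) + 3 + k) \ {(i : ℤ) + 1, (i : ℤ) + 3}).val =
    {1} + {z} + ∑ j ∈ range (i + 1), ({x j + 1} : Multiset ℕ) +
      ∑ j ∈ range i, ({y j + 1} : Multiset ℕ) +
      ∑ c ∈ range k, (({v (i + 3 + c) + 1} : Multiset ℕ) + {v (i + 3 + c) + 1}) := by
  set f : ℤ → ℕ := fun r => (fl L i ++ (fr R v i k).map (· + 1)).count r with hf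
  have hfr : ∀ r, f r = (fl L i).count r + (fr R v i k).count (r - 1) := by
    intro r
    rw [hf]
    simp only
    rw [List.count_append, count_map_add]
  -- the values
  have v1 : f (-((i : ℤ) + 1)) = 1 := by
    rw [hfr, fl_count, fr_count]
    have e : (-(-((i : ℤ) + 1) - 1)).toNat = i + 2 := by omega
    rw [e, hR']
    split_ifs <;> omega
  have v2 : f ((i : ℤ) + 2) = z := by
    rw [hfr, fl_count, fr_count]
    have e : ((i : ℤ) + 2 - 1).toNat = i + 1 := by omega
    rw [e, hz]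
    split_ifs <;> omega
  have v3 : ∀ j ∈ range (i + 1), f (-(j : ℤ)) = x j + 1 := by
    intro j hj
    rw [mem_range] at hj
    rw [hfr, fl_count, fr_count]
    have e : (-(-(j : ℤ) - 1)).toNat = j + 1 := by omega
    have e2 : (-(-(j : ℤ))).toNat = j := by omega
    rw [e, e2]
    have h := hx j (by omega)
    by_cases h0 : j = 0
    · subst h0
      simp only [Nat.cast_zero, neg_zero]
      split_ifs <;> omega
    · split_ifs <;> omega
  have v4 : ∀ j ∈ range i, f ((j : ℤ) + 1) = y j + 1 := by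
    intro j hj
    rw [mem_range] at hj
    rw [hfr, fl_count, fr_count]
    have e : ((j : ℤ) + 1 - 1).toNat = j := by omega
    have e2 : ((j : ℤ) + 1).toNat = j + 1 := by omega
    rw [e, e2]
    have h := hy j hj
    by_cases h0 : j = 0
    · subst h0
      simp only [Nat.cast_zero]
      split_ifs <;> omega
    · split_ifs <;> omega
  have v5 : ∀ c ∈ range k, f ((i : ℤ) + 4 + c) = v (i + 3 + c) + 1 := by
    intro c hc
    rw [mem_range] at hc
    rw [hfr, fl_count, fr_count]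
    have e : ((i : ℤ) + 4 + c - 1).toNat = i + 3 + c := by omega
    rw [e]
    split_ifs <;> omega
  have v6 : ∀ c ∈ range k, f (-((i : ℤ) + 2 + c)) = v (i + 3 + c) + 1 := by
    intro c hc
    rw [mem_range] at hc
    rw [hfr, fl_count, fr_count]
    have e : (-(-((i : ℤ) + 2 + c) - 1)).toNat = i + 3 + c := by omega
    rw [e]
    split_ifs <;> omega
  rw [map_eq_sum]
  have hset : Icc (-((i : ℤ) + 1 + k)) ((i : ℤ) + 3 + k) \ {(i : ℤ) + 1, (i : ℤ) + 3} =
      ((((({-((i : ℤ) + 1)} : Finset ℤ) ∪ {(i : ℤ) + 2}) ∪ (range (i + 1)).image (fun j : ℕ => -(j : ℤ))) ∪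
        (range i).image (fun j : ℕ => (j : ℤ) + 1)) ∪
        (range k).image (fun c : ℕ => (i : ℤ) + 4 + c)) ∪
        (range k).image (fun c : ℕ => -((i : ℤ) + 2 + c)) := by
    ext r
    simp only [mem_sdiff, mem_Icc, mem_insert, mem_singleton, mem_union, mem_image, mem_range]
    constructor
    · rintro ⟨⟨g1, g2⟩, g3⟩
      push Not at g3
      by_cases c1 : r = -((i : ℤ) + 1)
      · tauto
      by_cases c2 : r = (i : ℤ) + 2
      · tauto
      by_cases c3 : -(i : ℤ) ≤ r ∧ r ≤ 0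
      · left; left; left; right
        exact ⟨(-r).toNat, by omega, by omega⟩
      by_cases c4 : 1 ≤ r ∧ r ≤ i
      · left; left; right
        exact ⟨(r - 1).toNat, by omega, by omega⟩
      by_cases c5 : (i : ℤ) + 4 ≤ r
      · left; right
        exact ⟨(r - i - 4).toNat, by omega, by omega⟩
      · right
        exact ⟨(-r - i - 2).toNat, by omega, by omega⟩
    · rintro (((((h | h) | ⟨j, hj, h⟩) | ⟨j, hj, h⟩) | ⟨j, hj, h⟩) | ⟨j, hj, h⟩) <;> omega
  have s3 : ∑ j ∈ range (i + 1), ({f (-(j : ℤ))} : Multiset ℕ) = ∑ j ∈ range (i + 1), {x j + 1} :=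
    sum_congr rfl (fun j hj => by rw [v3 j hj])
  have s4 : ∑ j ∈ range i, ({f ((j : ℤ) + 1)} : Multiset ℕ) = ∑ j ∈ range i, {y j + 1} :=
    sum_congr rfl (fun j hj => by rw [v4 j hj])
  have s5 : ∑ c ∈ range k, ({f ((i : ℤ) + 4 + c)} : Multiset ℕ) =
      ∑ c ∈ range k, {v (i + 3 + c) + 1} := sum_congr rfl (fun j hj => by rw [v5 j hj])
  have s6 : ∑ c ∈ range k, ({f (-((i : ℤ) + 2 + c))} : Multiset ℕ) =
      ∑ c ∈ range k, {v (i + 3 + c) + 1} := sum_congr rfl (fun j hj => by rw [v6 j hj])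
  rw [hset]
  rw [sum_union, sum_union, sum_union, sum_union, sum_union, sum_singleton, sum_singleton,
    sum_image, sum_image, sum_image, sum_image, v1, v2, s3, s4, s5, s6, sum_add_distrib, ← add_assoc]
  · intro a _ b _ h; simpa using h
  · intro a _ b _ h; simpa using h
  · intro a _ b _ h; simpa using h
  · intro a _ b _ h; simpa using h
  all_goals
    rw [disjoint_left]
    intro r
    simp only [mem_singleton, mem_union, mem_image, mem_range]
  · rintro rfl; omega
  · rintro h ⟨j, hj, h'⟩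
    omega
  · rintro h ⟨j, hj, h'⟩
    rcases h with h | ⟨l, hl, h⟩ <;> omega
  · rintro h ⟨j, hj, h'⟩
    rcases h with (h | ⟨l, hl, h⟩) | ⟨l, hl, h⟩ <;> omega
  · rintro h ⟨j, hj, h'⟩
    rcases h with ((h | ⟨l, hl, h⟩) | ⟨l, hl, h⟩) | ⟨l, hl, h⟩ <;> omega

end Pool.Agent.SFT
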