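import Mathlib

/-! The word W0 for special super edge-magic star forests (helper64's page, part F2).
Rows are centred integers; with a column star K_{1,2} in column 0 whose leaves are the rows
`h + 1`, `h + 2`, the sums `column + row` of the word fill `0, 1, .., 2h + 3`. -/

namespace Pool.Agent.SFT

/-- the entry of the word in column `j` (`1 <= j <= 2h + 2`), with `p = h / 2` -/
def row (h j : ℕ) : ℤ :=
  if j = h / 2 + 1 then -(((h / 2 : ℕ) : ℤ) + 1)
  else if j ≤ h then (j : ℤ)
  else if j = h + 1 then -(h : ℤ)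
  else if j = h + 2 then (h : ℤ)
  else if j = 2 * h - h / 2 + 2 then ((h / 2 : ℕ) : ℤ) + 1
  else (j : ℤ) - (2 * (h : ℤ) + 3)

/-- the word `1, .., h, -h, h, -h, .., -1` with the entries `p + 1` and `-(p + 1)` interchanged -/
def W0 (h : ℕ) : List ℤ := (List.range (2 * h + 2)).map (fun i => row h (i + 1))

theorem W0_length (h : ℕ) : (W0 h).length = 2 * h + 2 := by
  simp [W0]

theorem W0_get (h i : ℕ) (hi : i < (W0 h).length) : (W0 h)[i] = row h (i + 1) := by
  simp [W0]

/-- the entries are between `-h` and `h` and not `0` -/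
theorem row_mem (h : ℕ) (hh : 1 ≤ h) (j : ℕ) (h1 : 1 ≤ j) (h2 : j ≤ 2 * h + 2) :
    -(h : ℤ) ≤ row h j ∧ row h j ≤ (h : ℤ) ∧ row h j ≠ 0 := by
  unfold row
  split_ifs <;> omega

theorem W0_mem (h : ℕ) (hh : 1 ≤ h) (c : ℤ) (hc : c ∈ W0 h) :
    -(h : ℤ) ≤ c ∧ c ≤ (h : ℤ) ∧ c ≠ 0 := by
  unfold W0 at hc
  rw [List.mem_map] at hc
  obtain ⟨i, hi, rfl⟩ := hc
  rw [List.mem_range] at hi
  exact row_mem h hh (i + 1) (by omega) (by omega)

/-- (a) the sums of the word together with `h + 1`, `h + 2` cover `0, .., 2h + 3` -/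
theorem W0_cover (h : ℕ) (hh : 1 ≤ h) (z : ℤ) (hz0 : 0 ≤ z) (hz1 : z ≤ 2 * (h : ℤ) + 3) :
    z = (h : ℤ) + 1 ∨ z = (h : ℤ) + 2 ∨
      ∃ j : ℕ, 1 ≤ j ∧ j ≤ 2 * h + 2 ∧ z = (j : ℤ) + row h j := by
  obtain ⟨n, rfl⟩ := Int.eq_ofNat_of_zero_le hz0
  by_cases e1 : (n : ℤ) = (h : ℤ) + 1
  · exact Or.inl e1
  by_cases e2 : (n : ℤ) = (h : ℤ) + 2
  · exact Or.inr (Or.inl e2)
  refine Or.inr (Or.inr ?_)
  by_cases a0 : n = 0
  · refine ⟨h / 2 + 1, by omega, by omega, ?_⟩
    unfold row
    split_ifs <;> omega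
  by_cases a1 : n = 1
  · refine ⟨h + 1, by omega, by omega, ?_⟩
    unfold row
    split_ifs <;> omega
  by_cases a2 : n = 2 * h + 2
  · refine ⟨h + 2, by omega, by omega, ?_⟩
    unfold row
    split_ifs <;> omega
  by_cases a3 : n = 2 * h + 3
  · refine ⟨2 * h - h / 2 + 2, by omega, by omega, ?_⟩
    unfold row
    split_ifs <;> omega
  by_cases ev : n % 2 = 0
  · refine ⟨n / 2, by omega, by omega, ?_⟩
    unfold row
    split_ifs <;> omega
  · refine ⟨(n + 2 * h + 3) / 2, by omega, by omega, ?_⟩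
    unfold row
    split_ifs <;> omega

theorem count_range_one (n : ℕ) (f : ℕ → ℤ) (c : ℤ) (a : ℕ) (ha : a < n)
    (h : ∀ i < n, (f i = c ↔ i = a)) : List.count c ((List.range n).map f) = 1 := by
  have e : List.count c ((List.range n).map f) =
      ((Finset.range n).filter (fun i => f i = c)).card := by
    rw [List.count, List.countP_map, List.countP_eq_length_filter]
    rw [← List.toFinset_card_of_nodup (List.Nodup.filter _ List.nodup_range)]
    congr 1
    ext i
    simp
  rw [e]
  have e2 : (Finset.range n).filter (fun i => f i = c) = {a} := by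
    ext i
    simp only [Finset.mem_filter, Finset.mem_range, Finset.mem_singleton]
    constructor
    · rintro ⟨hi, hc⟩
      exact (h i hi).1 hc
    · rintro rfl
      exact ⟨ha, (h i ha).2 rfl⟩
  rw [e2, Finset.card_singleton]

theorem count_range_two (n : ℕ) (f : ℕ → ℤ) (c : ℤ) (a b : ℕ) (ha : a < n) (hb : b < n)
    (hab : a ≠ b) (h : ∀ i < n, (f i = c ↔ i = a ∨ i = b)) :
    List.count c ((List.range n).map f) = 2 := by
  have e : List.count c ((List.range n).map f) =
      ((Finset.range n).filter (fun i => f i = c)).card := by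
    rw [List.count, List.countP_map, List.countP_eq_length_filter]
    rw [← List.toFinset_card_of_nodup (List.Nodup.filter _ List.nodup_range)]
    congr 1
    ext i
    simp
  rw [e]
  have e2 : (Finset.range n).filter (fun i => f i = c) = {a, b} := by
    ext i
    simp only [Finset.mem_filter, Finset.mem_range, Finset.mem_insert, Finset.mem_singleton]
    constructor
    · rintro ⟨hi, hc⟩
      exact (h i hi).1 hc
    · rintro (rfl | rfl)
      · exact ⟨ha, (h i ha).2 (Or.inl rfl)⟩
      · exact ⟨hb, (h i hb).2 (Or.inr rfl)⟩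
  rw [e2, Finset.card_pair hab]

/-- (b) every row `c` with `1 <= |c| < h` occurs once -/
theorem W0_count1 (h : ℕ) (hh : 1 ≤ h) (c : ℤ) (hc : c ≠ 0) (hc2 : c.natAbs < h) :
    List.count c (W0 h) = 1 := by
  unfold W0
  by_cases pos : 0 < c
  · by_cases cp : c = ((h / 2 : ℕ) : ℤ) + 1
    · refine count_range_one _ _ _ (2 * h - h / 2 + 1) (by omega) ?_
      intro i hi
      unfold row
      split_ifs <;> omega
    · refine count_range_one _ _ _ (c.toNat - 1) (by omega) ?_
      intro i hi
      unfold row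
      split_ifs <;> omega
  · by_cases cp : c = -(((h / 2 : ℕ) : ℤ) + 1)
    · refine count_range_one _ _ _ (h / 2) (by omega) ?_
      intro i hi
      unfold row
      split_ifs <;> omega
    · refine count_range_one _ _ _ (2 * h + 2 - (-c).toNat) (by omega) ?_
      intro i hi
      unfold row
      split_ifs <;> omega

/-- (b) the rows `h` and `-h` occur twice -/
theorem W0_count2 (h : ℕ) (hh : 1 ≤ h) (c : ℤ) (hc2 : c.natAbs = h) :
    List.count c (W0 h) = 2 := by
  unfold W0
  by_cases pos : 0 < c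
  · by_cases cp : c = ((h / 2 : ℕ) : ℤ) + 1
    · refine count_range_two _ _ _ (2 * h - h / 2 + 1) (h + 1) (by omega) (by omega) (by omega) ?_
      intro i hi
      unfold row
      split_ifs <;> omega
    · refine count_range_two _ _ _ (h - 1) (h + 1) (by omega) (by omega) (by omega) ?_
      intro i hi
      unfold row
      split_ifs <;> omega
  · by_cases cp : c = -(((h / 2 : ℕ) : ℤ) + 1)
    · refine count_range_two _ _ _ (h / 2) h (by omega) (by omega) (by omega) ?_
      intro i hi
      unfold row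
      split_ifs <;> omega
    · refine count_range_two _ _ _ (h + 2) h (by omega) (by omega) (by omega) ?_
      intro i hi
      unfold row
      split_ifs <;> omega

/-- (b) no other row occurs -/
theorem W0_count0 (h : ℕ) (hh : 1 ≤ h) (c : ℤ) (hc : c = 0 ∨ h < c.natAbs) :
    List.count c (W0 h) = 0 := by
  rw [List.count_eq_zero]
  intro hm
  have := W0_mem h hh c hm
  omega

/-- all counts in one formula -/
theorem W0_count (h : ℕ) (hh : 1 ≤ h) (c : ℤ) :
    List.count c (W0 h) = if c = 0 then 0 else if c.natAbs < h then 1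
      else if c.natAbs = h then 2 else 0 := by
  split_ifs with h0 h1 h2
  · exact W0_count0 h hh c (Or.inl h0)
  · exact W0_count1 h hh c h0 h1
  · exact W0_count2 h hh c h2
  · exact W0_count0 h hh c (Or.inr (by omega))

/-- the sums in columns of the word as a list: column `i + 1` has the sum `i + 1 + (W0 h)[i]` -/
theorem W0_cover_get (h : ℕ) (hh : 1 ≤ h) (z : ℤ) (hz0 : 0 ≤ z) (hz1 : z ≤ 2 * (h : ℤ) + 3) :
    z = (h : ℤ) + 1 ∨ z = (h : ℤ) + 2 ∨
      ∃ (i : ℕ) (hi : i < (W0 h).length), z = (i : ℤ) + 1 + (W0 h)[i] := by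
  rcases W0_cover h hh z hz0 hz1 with e | e | ⟨j, h1, h2, e⟩
  · exact Or.inl e
  · exact Or.inr (Or.inl e)
  · refine Or.inr (Or.inr ⟨j - 1, by rw [W0_length]; omega, ?_⟩)
    rw [W0_get]
    have hj : j - 1 + 1 = j := by omega
    rw [hj, e]
    omega

end Pool.Agent.SFT
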