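import Pool.Agent.SFT.Lad
import Pool.Agent.SFT.W0

/-!
# Star forests with a two-star (MP_fb2988_co): the words of type F2
-/

set_option autoImplicit false

open Finset

namespace Pool.Agent.SFT

/-- left word -/
def gl (L : ℕ → ℕ) (n : ℕ) : List ℤ :=
  List.replicate (L 0) 0 ++ (upw L 0 n ++ (lp (L (n + 1)) ((n : ℤ) + 1) ++ dnw (fun _ => 0) 0 n))

/-- right word after `W0`, in the frame of the right side -/
def gt (R : ℕ → ℕ) (l : ℕ) : List ℤ :=
  upw (fun c => R c - 1) 0 l ++ (dnw (fun _ => 0) 0 l ++ List.replicate (R 0) 0)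

/-- right word, in the frame of the right side -/
def gr (R : ℕ → ℕ) (n l : ℕ) : List ℤ := (W0 (n + 1)).map (fun x => x - 1) ++ gt R l

theorem gl_tr (L : ℕ → ℕ) (n : ℕ) : Tr (gl L n) (D 0) (D 0) := by
  have h1 := Tr.stays (L 0)
  have h2 := Tr.upw L 0 n
  have h3 := Tr.lp (L (n + 1)) (n : ℤ) (by positivity)
  have h4 := Tr.dnw (fun _ => 0) 0 n
  simp only [Nat.cast_zero, zero_add] at h2 h4
  exact h1.append (h2.append (h3.append h4))

theorem gt_tr (R : ℕ → ℕ) (l : ℕ) : Tr (gt R l) (D 0) (D 0) := by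
  have h1 := Tr.stays (R 0)
  have h2 := Tr.upw (fun c => R c - 1) 0 l
  have h4 := Tr.dnw (fun _ => 0) 0 l
  simp only [Nat.cast_zero, zero_add] at h2 h4
  exact h2.append (h4.append h1)

/-- the state after the double column -/
def E0 (h : ℤ) (e : ℤ) : Set ℤ := {z | z < e - 2 ∨ z = e - 2 + (h + 1) ∨ z = e - 2 + (h + 2)}

theorem w0_tr (h : ℕ) (hh : 1 ≤ h) : Tr ((W0 h).map (fun x => x - 1)) (E0 h) (D 0) := by
  intro e z hz
  rw [List.length_map, W0_length] at hz
  simp only [D, Set.mem_ofPred_eq] at hz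
  by_cases h1 : z < e - 2
  · left
    exact Or.inl h1
  have h2 : 0 ≤ z - (e - 2) := by omega
  have h3 : z - (e - 2) ≤ 2 * (h : ℤ) + 3 := by
    push_cast at hz
    omega
  rcases W0_cover_get h hh (z - (e - 2)) h2 h3 with h4 | h4 | ⟨i, hi, h4⟩
  · left
    right; left
    omega
  · left
    right; right
    omega
  · right
    refine ⟨i, (W0 h)[i] - 1, ?_, by omega⟩
    rw [List.getElem?_map, List.getElem?_eq_getElem hi]
    rfl

theorem gr_tr (R : ℕ → ℕ) (n l : ℕ) : Tr (gr R n l) (E0 ((n + 1 : ℕ) : ℤ)) (D 0) :=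
  (w0_tr (n + 1) (by omega)).append (gt_tr R l)

theorem e0_step (h n z : ℤ) (hz : z ∈ E0 h (n + 2)) : z ∈ D 0 n ∨ z = n + (h + 1) ∨ z = n + (h + 2) := by
  simp only [E0, D, Set.mem_ofPred_eq] at hz ⊢
  omega

theorem gl_count (L : ℕ → ℕ) (n : ℕ) (r : ℤ) : (gl L n).count r =
    if r = 0 then L 0 else if 0 < r ∧ r ≤ n then L r.toNat + 1
      else if 0 < -r ∧ -r ≤ n then L (-r).toNat + 1
      else if r = n + 1 ∨ r = -((n : ℤ) + 1) then L (n + 1) else 0 := by
  rw [gl, List.count_append, List.count_append, List.count_append, count_rep, count_upw, count_dnw,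
    count_lp _ _ _ (by positivity)]
  simp only [Nat.cast_zero, zero_add]
  split_ifs <;> omega

theorem gt_count (R : ℕ → ℕ) (l : ℕ) (hR : ∀ c, 1 ≤ c → c ≤ l → 1 ≤ R c) (r : ℤ) :
    (gt R l).count r = if r = 0 then R 0 else if 0 < r ∧ r ≤ l then R r.toNat
      else if 0 < -r ∧ -r ≤ l then R (-r).toNat else 0 := by
  rw [gt, List.count_append, List.count_append, count_rep, count_upw, count_dnw]
  simp only [Nat.cast_zero, zero_add]
  have h1 : 0 < r ∧ r ≤ l → 1 ≤ R r.toNat := fun h => hR _ (by omega) (by omega)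
  have h2 : 0 < -r ∧ -r ≤ l → 1 ≤ R (-r).toNat := fun h => hR _ (by omega) (by omega)
  split_ifs <;> omega

theorem gr_map (R : ℕ → ℕ) (n l : ℕ) :
    (gr R n l).map (· + 1) = W0 (n + 1) ++ (gt R l).map (· + 1) := by
  rw [gr, List.map_append, List.map_map]
  congr 1
  have : ((fun x : ℤ => x + 1) ∘ fun x => x - 1) = id := by
    funext x
    simp
  rw [this, List.map_id]

theorem w_count (L R : ℕ → ℕ) (n l : ℕ) (hR : ∀ c, 1 ≤ c → c ≤ l → 1 ≤ R c) (r : ℤ) :
    (gl L n ++ (gr R n l).map (· + 1)).count r = (gl L n).count r + ((W0 (n + 1)).count r +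
      if r - 1 = 0 then R 0 else if 0 < r - 1 ∧ r - 1 ≤ l then R (r - 1).toNat
      else if 0 < -(r - 1) ∧ -(r - 1) ≤ l then R (-(r - 1)).toNat else 0) := by
  rw [gr_map, List.count_append, List.count_append, count_map_add, gt_count R l hR]

/-- all entries of the words are allowed rows -/
theorem f2_mem (L R : ℕ → ℕ) (n l : ℕ) (hl : l ≤ n) (hR : ∀ c, 1 ≤ c → c ≤ l → 1 ≤ R c) (r : ℤ)
    (hr : r ∈ gl L n ++ (gr R n l).map (· + 1)) :
    -((n : ℤ) + 1) ≤ r ∧ r ≤ (n : ℤ) + 1 := by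
  have h1 : 0 < (gl L n ++ (gr R n l).map (· + 1)).count r := List.count_pos_iff.2 hr
  rw [w_count L R n l hR, gl_count] at h1
  have h2 : ((n : ℤ) + 1 < r ∨ (n : ℤ) + 1 < -r) → (W0 (n + 1)).count r = 0 := by
    intro h
    apply W0_count0 (n + 1) (by omega)
    right
    omega
  by_contra h
  have h3 : (n : ℤ) + 1 < r ∨ (n : ℤ) + 1 < -r := by omega
  rw [h2 h3] at h1
  split_ifs at h1 <;> omega

/-- the multiset of the numbers of uses -/
theorem f2_sizes (L R : ℕ → ℕ) (n l : ℕ) (hl : l ≤ n) (hR : ∀ c, 1 ≤ c → c ≤ l → 1 ≤ R c)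
    (hR0 : ∀ c, l < c → R c = 0) :
    Multiset.map (fun r => (gl L n ++ (gr R n l).map (· + 1)).count r)
      (Icc (-((n : ℤ) + 1)) ((n : ℤ) + 3) \ {(n : ℤ) + 2, (n : ℤ) + 3}).val =
    {L 0 + R 1} + ∑ j ∈ range (n + 1),
      (({L (j + 1) + R j + 2} : Multiset ℕ) + {L (j + 1) + R (j + 2) + 2}) := by
  set f : ℤ → ℕ := fun r => (gl L n ++ (gr R n l).map (· + 1)).count r with hf
  have hfr : ∀ r, f r = (gl L n).count r + ((W0 (n + 1)).count r +
      if r - 1 = 0 then R 0 else if 0 < r - 1 ∧ r - 1 ≤ l then R (r - 1).toNat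
      else if 0 < -(r - 1) ∧ -(r - 1) ≤ l then R (-(r - 1)).toNat else 0) := by
    intro r
    rw [hf]
    simp only
    rw [w_count L R n l hR]
  have v0 : f 0 = L 0 + R 1 := by
    rw [hfr, gl_count, W0_count0 (n + 1) (by omega) 0 (by simp)]
    have e : (-((0 : ℤ) - 1)).toNat = 1 := by norm_num
    rw [e]
    have := hR0 1
    split_ifs <;> omega
  have v1 : ∀ j ∈ range (n + 1), f ((j : ℤ) + 1) = L (j + 1) + R j + 2 := by
    intro j hj
    rw [mem_range] at hj
    have hw : (W0 (n + 1)).count ((j : ℤ) + 1) = if j = n then 2 else 1 := by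
      split_ifs with h
      · exact W0_count2 (n + 1) (by omega) _ (by omega)
      · exact W0_count1 (n + 1) (by omega) _ (by omega) (by omega)
    rw [hfr, gl_count, hw]
    have e : ((j : ℤ) + 1 - 1).toNat = j := by omega
    have e2 : ((j : ℤ) + 1).toNat = j + 1 := by omega
    rw [e, e2]
    have h3 := hR0 j
    have h4 : j = n → L (j + 1) = L (n + 1) := fun h => by rw [h]
    have h5 : j = 0 → R j = R 0 := fun h => by rw [h]
    split_ifs <;> omega
  have v2 : ∀ j ∈ range (n + 1), f (-((j : ℤ) + 1)) = L (j + 1) + R (j + 2) + 2 := by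
    intro j hj
    rw [mem_range] at hj
    have hw : (W0 (n + 1)).count (-((j : ℤ) + 1)) = if j = n then 2 else 1 := by
      split_ifs with h
      · exact W0_count2 (n + 1) (by omega) _ (by omega)
      · exact W0_count1 (n + 1) (by omega) _ (by omega) (by omega)
    rw [hfr, gl_count, hw]
    have e : (-(-((j : ℤ) + 1) - 1)).toNat = j + 2 := by omega
    have e2 : (-(-((j : ℤ) + 1))).toNat = j + 1 := by omega
    rw [e, e2]
    have h3 := hR0 (j + 2)
    have h4 : j = n → L (j + 1) = L (n + 1) := fun h => by rw [h]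
    split_ifs <;> omega
  have s1 : ∑ j ∈ range (n + 1), ({f ((j : ℤ) + 1)} : Multiset ℕ) =
      ∑ j ∈ range (n + 1), {L (j + 1) + R j + 2} := sum_congr rfl (fun j hj => by rw [v1 j hj])
  have s2 : ∑ j ∈ range (n + 1), ({f (-((j : ℤ) + 1))} : Multiset ℕ) =
      ∑ j ∈ range (n + 1), {L (j + 1) + R (j + 2) + 2} :=
    sum_congr rfl (fun j hj => by rw [v2 j hj])
  have hset : Icc (-((n : ℤ) + 1)) ((n : ℤ) + 3) \ {(n : ℤ) + 2, (n : ℤ) + 3} =
      (({(0 : ℤ)} : Finset ℤ) ∪ (range (n + 1)).image (fun j : ℕ => (j : ℤ) + 1)) ∪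
        (range (n + 1)).image (fun j : ℕ => -((j : ℤ) + 1)) := by
    ext r
    simp only [mem_sdiff, mem_Icc, mem_insert, mem_singleton, mem_union, mem_image, mem_range]
    constructor
    · rintro ⟨⟨g1, g2⟩, g3⟩
      push Not at g3
      by_cases c1 : r = 0
      · tauto
      by_cases c2 : 0 < r
      · left; right
        exact ⟨(r - 1).toNat, by omega, by omega⟩
      · right
        exact ⟨(-r - 1).toNat, by omega, by omega⟩
    · rintro ((h | ⟨j, hj, h⟩) | ⟨j, hj, h⟩) <;> omega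
  rw [map_eq_sum, hset, sum_union, sum_union, sum_singleton, sum_image, sum_image, v0, s1, s2,
    sum_add_distrib, ← add_assoc]
  · intro a _ b _ h; simpa using h
  · intro a _ b _ h; simpa using h
  all_goals
    rw [disjoint_left]
    intro r
    simp only [mem_singleton, mem_union, mem_image, mem_range]
  · rintro h ⟨j, hj, h'⟩
    omega
  · rintro h ⟨j, hj, h'⟩
    rcases h with h | ⟨l, hl, h⟩ <;> omega

end Pool.Agent.SFT
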