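import Pool.Agent.SFT.Cnt

/-!
# Star forests with a two-star: the ladder equations and the cover (MP_fb2988_co)
-/

set_option autoImplicit false

namespace Pool.Agent.SFT

/-- the ladder equations, solved from the top -/
theorem ladder (x y : ℕ → ℕ) : ∀ (n Ln Rn : ℕ), (∀ j, j + 1 = n → Rn ≤ x j ∧ Ln ≤ y j) →
    (∀ j, j + 1 < n → x (j + 1) ≤ y j ∧ y (j + 1) ≤ x j) →
    ∃ L R : ℕ → ℕ, L n = Ln ∧ R n = Rn ∧
      ∀ j, j < n → L j + R (j + 1) = x j ∧ L (j + 1) + R j = y j := by
  intro n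
  induction n with
  | zero =>
    intro Ln Rn _ _
    exact ⟨fun _ => Ln, fun _ => Rn, rfl, rfl, fun j hj => absurd hj (by omega)⟩
  | succ n ih =>
    intro Ln Rn h1 h2
    obtain ⟨g1, g2⟩ := h1 n rfl
    obtain ⟨L, R, hL, hR, hLR⟩ := ih (x n - Rn) (y n - Ln)
      (fun j hj => by
        have := h2 j (by omega)
        subst hj
        omega)
      (fun j hj => h2 j (by omega))
    refine ⟨fun j => if j = n + 1 then Ln else L j, fun j => if j = n + 1 then Rn else R j,
      by simp, by simp, ?_⟩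
    intro j hj
    by_cases hjn : j = n
    · subst hjn
      have e : ¬ (j = j + 1) := by omega
      simp only [e, if_false, if_true]
      omega
    · have e1 : ¬ (j = n + 1) := by omega
      have e2 : ¬ (j + 1 = n + 1) := by omega
      simp only [e1, e2, if_false]
      exact hLR j (by omega)

/-- left word, double column, right word -/
theorem cover_of_tr {w₁ w₂ : List ℤ} {A B : ℤ → Set ℤ} {U₁ U₂ : ℤ} (h₁ : Tr w₁ (D 0) A)
    (hd : ∀ n z, z ∈ B (n + 2) → z ∈ A n ∨ z = n + U₁ ∨ z = n + U₂) (h₂ : Tr w₂ B (D 0)) (z : ℤ)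
    (hz : 0 ≤ z) (hz' : z < 0 + w₁.length + (w₂.map (· + 1)).length + 2) :
    z ∈ cov w₁ 0 ∨ z = w₁.length + U₁ ∨ z = w₁.length + U₂ ∨
      z ∈ cov (w₂.map (· + 1)) (w₁.length + 1) := by
  rw [List.length_map] at hz'
  have h3 : z ∈ D 0 ((w₁.length : ℤ) + 2 + w₂.length) := by
    simp only [D, Set.mem_ofPred_eq]
    omega
  rw [cov_map_add]
  have e : ((w₁.length : ℤ) + 1 + 1) = (w₁.length : ℤ) + 2 := by ring
  rw [e]
  rcases h₂ _ h3 with h4 | h4
  · rcases hd _ _ h4 with h5 | h5 | h5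
    · have h6 : z ∈ A (0 + w₁.length) := by rwa [zero_add]
      rcases h₁ 0 h6 with h7 | h7
      · exfalso
        simp only [D, Set.mem_ofPred_eq] at h7
        omega
      · exact Or.inl h7
    · exact Or.inr (Or.inl h5)
    · exact Or.inr (Or.inr (Or.inl h5))
  · exact Or.inr (Or.inr (Or.inr h4))

/-- the double column at a staircase: two high cells -/
theorem double_up (i n z : ℤ) (hz : z ∈ D (i + 2) (n + 2)) :
    z ∈ D i n ∨ z = n + (i + 1) ∨ z = n + (i + 3) := by
  simp only [D, Set.mem_ofPred_eq] at hz ⊢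
  omega

theorem map_eq_sum {ι : Type*} (s : Finset ι) (f : ι → ℕ) :
    Multiset.map f s.val = ∑ r ∈ s, ({f r} : Multiset ℕ) := by
  have h := Multiset.sum_map_singleton (Multiset.map f s.val)
  rw [Multiset.map_map] at h
  exact h.symm

end Pool.Agent.SFT
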