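import Mathlib

/-!
# Star forests with a two-star: transitions between states (MP_fb2988_co)

A word `w` of rows is read in the columns `e, e+1, ..`; the entry `c` in column `n` gives the sum
`n + c`.  `D i e` is the staircase state of level `i` at time `e`.
-/

set_option autoImplicit false

namespace Pool.Agent.SFT

/-- the sums of the word `w` started in column `e` -/
def cov (w : List ℤ) (e : ℤ) : Set ℤ := {z | ∃ (j : ℕ) (c : ℤ), w[j]? = some c ∧ z = e + j + c}

theorem cov_nil (e : ℤ) : cov [] e = ∅ := by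
  ext z; simp [cov]

theorem cov_append (w₁ w₂ : List ℤ) (e : ℤ) :
    cov (w₁ ++ w₂) e = cov w₁ e ∪ cov w₂ (e + w₁.length) := by
  ext z
  constructor
  · rintro ⟨j, c, h, rfl⟩
    by_cases hj : j < w₁.length
    · left
      rw [List.getElem?_append_left hj] at h
      exact ⟨j, c, h, rfl⟩
    · right
      push Not at hj
      rw [List.getElem?_append_right hj] at h
      refine ⟨j - w₁.length, c, h, ?_⟩
      push_cast [Nat.cast_sub hj]
      ring
  · rintro (⟨j, c, h, rfl⟩ | ⟨j, c, h, rfl⟩)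
    · have hj : j < w₁.length := by
        by_contra hj
        push Not at hj
        rw [List.getElem?_eq_none hj] at h
        cases h
      refine ⟨j, c, ?_, rfl⟩
      rw [List.getElem?_append_left hj]
      exact h
    · refine ⟨w₁.length + j, c, ?_, ?_⟩
      · rw [List.getElem?_append_right (by omega)]
        rw [Nat.add_sub_cancel_left]
        exact h
      · push_cast
        ring

theorem mem_cov_single (c e : ℤ) : e + c ∈ cov [c] e := ⟨0, c, by simp, by simp⟩

/-- raising all the rows by one is the same as starting one column later -/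
theorem cov_map_add (w : List ℤ) (e : ℤ) : cov (w.map (· + 1)) e = cov w (e + 1) := by
  ext z
  constructor
  · rintro ⟨j, c, h, rfl⟩
    rw [List.getElem?_map, Option.map_eq_some_iff] at h
    obtain ⟨c', h1, rfl⟩ := h
    exact ⟨j, c', h1, by ring⟩
  · rintro ⟨j, c, h, rfl⟩
    refine ⟨j, c + 1, ?_, by ring⟩
    rw [List.getElem?_map, h]
    rfl

/-- the word `w` leads from the state `A` to (at least) the state `B` -/
def Tr (w : List ℤ) (A B : ℤ → Set ℤ) : Prop :=
  ∀ e : ℤ, B (e + w.length) ⊆ A e ∪ cov w e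

theorem Tr.nil (A : ℤ → Set ℤ) : Tr [] A A := by
  intro e z hz
  left
  simpa using hz

theorem Tr.append {w₁ w₂ : List ℤ} {A B C : ℤ → Set ℤ} (h₁ : Tr w₁ A B) (h₂ : Tr w₂ B C) :
    Tr (w₁ ++ w₂) A C := by
  intro e z hz
  rw [cov_append]
  have h3 : z ∈ C (e + w₁.length + w₂.length) := by
    have : (e + ((w₁ ++ w₂).length : ℕ) : ℤ) = e + w₁.length + w₂.length := by
      rw [List.length_append]; push_cast; ring
    rw [this] at hz
    exact hz
  rcases h₂ (e + w₁.length) h3 with h4 | h4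
  · rcases h₁ e h4 with h5 | h5
    · exact Or.inl h5
    · exact Or.inr (Or.inl h5)
  · exact Or.inr (Or.inr h4)

theorem Tr.rep {w : List ℤ} {A : ℤ → Set ℤ} (h : Tr w A A) (k : ℕ) :
    Tr (List.replicate k w).flatten A A := by
  induction k with
  | zero => simpa using Tr.nil A
  | succ k ih =>
    rw [List.replicate_succ, List.flatten_cons]
    exact h.append ih

/-- staircase of level `i` at time `e` -/
def D (i : ℤ) (e : ℤ) : Set ℤ := {z | z < e - i ∨ (z < e + i ∧ (z + e + i) % 2 = 1)}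

theorem Tr.of_single {c : ℤ} {A B : ℤ → Set ℤ} (h : ∀ e z, z ∈ B (e + 1) → z ∈ A e ∨ z = e + c) :
    Tr [c] A B := by
  intro e z hz
  have h1 : z ∈ B (e + 1) := by simpa using hz
  rcases h e z h1 with h2 | rfl
  · exact Or.inl h2
  · exact Or.inr (mem_cov_single c e)

theorem Tr.up (i : ℤ) : Tr [i + 1] (D i) (D (i + 1)) := by
  apply Tr.of_single
  intro e z hz
  simp only [D, Set.mem_ofPred_eq] at hz ⊢
  omega

theorem Tr.down (i : ℤ) (hi : 0 ≤ i) : Tr [-(i + 1)] (D (i + 1)) (D i) := by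
  apply Tr.of_single
  intro e z hz
  simp only [D, Set.mem_ofPred_eq] at hz ⊢
  omega

theorem Tr.stay : Tr [0] (D 0) (D 0) := by
  apply Tr.of_single
  intro e z hz
  simp only [D, Set.mem_ofPred_eq] at hz ⊢
  omega

/-- `k` copies of the loop `c, -c` -/
def lp (k : ℕ) (c : ℤ) : List ℤ := (List.replicate k [c, -c]).flatten

theorem Tr.lp (k : ℕ) (i : ℤ) (hi : 0 ≤ i) : Tr (lp k (i + 1)) (D i) (D i) :=
  Tr.rep ((Tr.up i).append (Tr.down i hi)) k

theorem Tr.stays (k : ℕ) : Tr (List.replicate k 0) (D 0) (D 0) := by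
  have h := Tr.rep Tr.stay k
  have h1 : ∀ k : ℕ, (List.replicate k [(0 : ℤ)]).flatten = List.replicate k 0 := by
    intro k
    induction k with
    | zero => rfl
    | succ k ih => rw [List.replicate_succ, List.flatten_cons, ih]; rfl
  rwa [h1] at h

/-- from level `a` up to level `a + n`, with `L c` loops `(c, -c)` at level `c - 1` -/
def upw (L : ℕ → ℕ) (a : ℕ) : ℕ → List ℤ
  | 0 => []
  | n + 1 => upw L a n ++ (lp (L (a + n + 1)) ((a + n : ℕ) + 1 : ℤ) ++ [((a + n : ℕ) + 1 : ℤ)])

/-- from level `a + n` down to level `a`, with `R c` loops `(c, -c)` at level `c - 1` -/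
def dnw (R : ℕ → ℕ) (a : ℕ) : ℕ → List ℤ
  | 0 => []
  | n + 1 => ([-((a + n : ℕ) + 1 : ℤ)] ++ lp (R (a + n + 1)) ((a + n : ℕ) + 1 : ℤ)) ++ dnw R a n

theorem Tr.upw (L : ℕ → ℕ) (a n : ℕ) : Tr (upw L a n) (D a) (D ((a + n : ℕ) : ℤ)) := by
  induction n with
  | zero => exact Tr.nil _
  | succ n ih =>
    refine ih.append ?_
    have h := (Tr.lp (L (a + n + 1)) ((a + n : ℕ) : ℤ) (by positivity)).append (Tr.up ((a + n : ℕ) : ℤ))
    have e : (((a + (n + 1) : ℕ)) : ℤ) = ((a + n : ℕ) : ℤ) + 1 := by push_cast; ring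
    rw [e]
    exact h

theorem Tr.dnw (R : ℕ → ℕ) (a n : ℕ) : Tr (dnw R a n) (D ((a + n : ℕ) : ℤ)) (D a) := by
  induction n with
  | zero => exact Tr.nil _
  | succ n ih =>
    have h := (Tr.down ((a + n : ℕ) : ℤ) (by positivity)).append
      (Tr.lp (R (a + n + 1)) ((a + n : ℕ) : ℤ) (by positivity))
    have e : (((a + (n + 1) : ℕ)) : ℤ) = ((a + n : ℕ) : ℤ) + 1 := by push_cast; ring
    rw [e]
    exact h.append ih

end Pool.Agent.SFT
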