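import Pool.Agent.StarF.Build3
import Pool.Agent.SFT.Tr

/-!
# Star forests with a two-star: from words to labelings (MP_fb2988_co)

Rows `a, .., b` (integers), two of them, `U1` and `U2`, are the leaves of the star `K_{1,2}` whose
centre is the column `|w1|`; the words `w1`, `w2` give the rows of the other columns.
-/

set_option autoImplicit false

open Finset

namespace Pool.Agent.SFT

open Pool.Agent.StarF (IsSSEM starForest Lab lab_of_cov)

/-- two families with the same multiset of values differ by an equivalence -/
theorem exists_equiv_of_map_eq {α β γ : Type} [Fintype α] [Fintype β] [DecidableEq γ]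
    (f : α → γ) (g : β → γ)
    (h : Multiset.map f (Finset.univ : Finset α).val = Multiset.map g (Finset.univ : Finset β).val) :
    ∃ e : α ≃ β, ∀ a, g (e a) = f a := by
  classical
  have h1 : ∀ c : γ, Fintype.card {a // f a = c} = Fintype.card {b // g b = c} := by
    intro c
    have h2 := congrArg (Multiset.count c) h
    rw [Multiset.count_map, Multiset.count_map] at h2
    rw [Fintype.card_subtype, Fintype.card_subtype, Finset.card_def, Finset.card_def,
      Finset.filter_val, Finset.filter_val]
    have h3 : (fun a => f a = c) = fun a => c = f a := by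
      funext a
      exact propext eq_comm
    have h4 : (fun b => g b = c) = fun b => c = g b := by
      funext a
      exact propext eq_comm
    simp only [h3, h4]
    exact h2
  refine ⟨Equiv.ofFiberEquiv fun c => Fintype.equivOfCardEq (h1 c), fun a => ?_⟩
  exact Equiv.ofFiberEquiv_map _ a

/-- the number of places of an entry in a list -/
theorem card_getD (W : List ℤ) (d r : ℤ) :
    ((range W.length).filter fun j => W.getD j d = r).card = W.count r := by
  have e0 : (List.range W.length).map (fun j => W.getD j d) = W := by
    apply List.ext_getElem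
    · simp
    · intro n h1 h2
      rw [List.getElem_map, List.getElem_range, List.getD_eq_getElem _ _ h2]
  have e1 : List.count r ((List.range W.length).map fun j => W.getD j d) =
      ((range W.length).filter fun j => W.getD j d = r).card := by
    rw [List.count, List.countP_map, List.countP_eq_length_filter]
    rw [← List.toFinset_card_of_nodup (List.Nodup.filter _ List.nodup_range)]
    congr 1
    ext i
    simp
  rw [← e1, e0]

theorem ssem_of_words {t : ℕ} (m : Fin t → ℕ) (a b U1 U2 : ℤ) (h1 : a ≤ U1) (h2 : U1 ≤ b)
    (h3 : a ≤ U2) (h4 : U2 ≤ b) (hne : U1 ≠ U2) (w1 w2 : List ℤ)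
    (hw : ∀ x ∈ w1 ++ w2, a ≤ x ∧ x ≤ b ∧ x ≠ U1 ∧ x ≠ U2) (lo : ℤ)
    (hcov : ∀ z : ℤ, lo ≤ z → z < lo + w1.length + w2.length + 2 →
      z ∈ cov w1 0 ∨ z = w1.length + U1 ∨ z = w1.length + U2 ∨ z ∈ cov w2 (w1.length + 1))
    (hm : Multiset.map m (Finset.univ : Finset (Fin t)).val =
      2 ::ₘ Multiset.map (fun r => (w1 ++ w2).count r) (Finset.Icc a b \ {U1, U2}).val) :
    IsSSEM (starForest m) := by
  classical
  obtain ⟨A, hA⟩ : ∃ A : ℕ, (A : ℤ) = b - a + 1 := ⟨(b - a + 1).toNat, by omega⟩
  set S : Finset ℤ := Finset.Icc a b \ {U1, U2} with hS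
  have mS : ∀ r, r ∈ S ↔ (a ≤ r ∧ r ≤ b) ∧ r ≠ U1 ∧ r ≠ U2 := by
    intro r
    rw [hS, mem_sdiff, mem_Icc, mem_insert, mem_singleton]
    tauto
  have hU1S : U1 ∉ S := fun h => ((mS U1).1 h).2.1 rfl
  have hU2S : U2 ∉ S := fun h => ((mS U2).1 h).2.2 rfl
  have hSc : S.card + 2 = A := by
    rw [hS, card_sdiff_of_subset, card_pair hne, Int.card_Icc]
    · omega
    · intro x hx
      rw [mem_insert, mem_singleton] at hx
      rw [mem_Icc]
      rcases hx with rfl | rfl
      · exact ⟨h1, h2⟩
      · exact ⟨h3, h4⟩
  set g : ℤ → ℕ := fun r => if r = U1 then 2 else (w1 ++ w2).count r with hg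
  have hmap : Multiset.map m (Finset.univ : Finset (Fin t)).val =
      Multiset.map (fun r : (insert U1 S : Finset ℤ) => g r.1)
        (Finset.univ : Finset (insert U1 S : Finset ℤ)).val := by
    have e1 : Multiset.map (fun r : (insert U1 S : Finset ℤ) => g r.1)
        (Finset.univ : Finset (insert U1 S : Finset ℤ)).val =
        Multiset.map g (insert U1 S : Finset ℤ).val := by
      rw [Finset.univ_eq_attach, Finset.attach_val]
      have e2 : (fun r : (insert U1 S : Finset ℤ) => g r.1) = g ∘ Subtype.val := rfl
      rw [e2, ← Multiset.map_map, Multiset.attach_map_val]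
    rw [e1, insert_val_of_notMem hU1S, Multiset.map_cons, hm]
    congr 1
    · rw [hg]
      simp
    · apply Multiset.map_congr rfl
      intro r hr
      have hr2 : r ∈ S := hr
      have hr1 : r ≠ U1 := ((mS r).1 hr2).2.1
      rw [hg]
      simp [hr1]
  obtain ⟨e, he⟩ := exists_equiv_of_map_eq m _ hmap
  -- the row of a label
  set W : List ℤ := w1 ++ U1 :: w2 with hW
  have hWl : W.length = w1.length + w2.length + 1 := by
    rw [hW, List.length_append, List.length_cons]
    omega
  set R : ℕ → ℤ := fun n => if n ≤ A then a + n - 1 else W.getD (n - A - 1) U1 with hR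
  set F : ℤ → (insert U1 S : Finset ℤ) := fun r =>
    if h : r ∈ S then ⟨r, mem_insert_of_mem h⟩ else ⟨U1, mem_insert_self _ _⟩ with hF
  have F1 : ∀ r, r ∈ S → (F r).1 = r := by
    intro r hr
    rw [hF]
    simp [hr]
  have F2 : ∀ r, r ∉ S → (F r).1 = U1 := by
    intro r hr
    rw [hF]
    simp [hr]
  set own : ℕ → Fin t := fun n => e.symm (F (R n)) with hown
  set cen : Fin t → ℕ := fun i =>
    if (e i).1 = U1 then A + 1 + w1.length else ((e i).1 - a + 1).toNat with hcen
  have own_iff : ∀ n i, own n = i ↔ (F (R n)).1 = (e i).1 := by
    intro n i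
    rw [hown]
    show e.symm (F (R n)) = i ↔ _
    rw [Equiv.symm_apply_eq]
    exact Subtype.ext_iff
  have R1 : ∀ n, n ≤ A → R n = a + n - 1 := by
    intro n hn
    rw [hR]
    simp [hn]
  have R2 : ∀ j : ℕ, R (A + 1 + j) = W.getD j U1 := by
    intro j
    rw [hR]
    have h5 : ¬ A + 1 + j ≤ A := by omega
    have h6 : A + 1 + j - A - 1 = j := by omega
    simp only [h5, if_false, h6]
  have W1 : ∀ (j : ℕ) (c : ℤ), w1[j]? = some c → W.getD j U1 = c ∧ j < w1.length := by
    intro j c h
    have hj : j < w1.length := by
      by_contra hj
      push Not at hj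
      rw [List.getElem?_eq_none hj] at h
      cases h
    refine ⟨?_, hj⟩
    rw [List.getD_eq_getElem?_getD, hW, List.getElem?_append_left hj, h]
    rfl
  have W2 : ∀ (j : ℕ) (c : ℤ), w2[j]? = some c →
      W.getD (w1.length + 1 + j) U1 = c ∧ j < w2.length := by
    intro j c h
    have hj : j < w2.length := by
      by_contra hj
      push Not at hj
      rw [List.getElem?_eq_none hj] at h
      cases h
    refine ⟨?_, hj⟩
    rw [List.getD_eq_getElem?_getD, hW, List.getElem?_append_right (by omega)]
    have h5 : w1.length + 1 + j - w1.length = j + 1 := by omega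
    rw [h5, List.getElem?_cons_succ, h]
    rfl
  have W3 : W.getD w1.length U1 = U1 := by
    rw [List.getD_eq_getElem?_getD, hW, List.getElem?_append_right le_rfl, Nat.sub_self]
    rfl
  have wS : ∀ x ∈ w1 ++ w2, x ∈ S := by
    intro x hx
    obtain ⟨g1, g2, g3, g4⟩ := hw x hx
    exact (mS x).2 ⟨⟨g1, g2⟩, g3, g4⟩
  have W4 : ∀ j, j < W.length → j ≠ w1.length → W.getD j U1 ∈ S := by
    intro j hj hne'
    rcases lt_or_gt_of_ne hne' with hlt | hgt
    · have g1 : w1[j]? = some w1[j] := List.getElem?_eq_getElem hlt
      rw [(W1 j _ g1).1]
      exact wS _ (List.mem_append_left _ (List.getElem_mem hlt))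
    · have hj2 : j - (w1.length + 1) < w2.length := by omega
      have g1 : w2[j - (w1.length + 1)]? = some w2[j - (w1.length + 1)] :=
        List.getElem?_eq_getElem hj2
      have g2 := (W2 _ _ g1).1
      have g3 : w1.length + 1 + (j - (w1.length + 1)) = j := by omega
      rw [g3] at g2
      rw [g2]
      exact wS _ (List.mem_append_right _ (List.getElem_mem hj2))
  have eS : ∀ i, (e i).1 ≠ U1 → (e i).1 ∈ S := by
    intro i hi
    have h5 := (e i).2
    rw [mem_insert] at h5
    rcases h5 with h5 | h5
    · exact absurd h5 hi
    · exact h5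
  have own_cen : ∀ i, own (cen i) = i := by
    intro i
    rw [own_iff]
    by_cases hi : (e i).1 = U1
    · have h5 : cen i = A + 1 + w1.length := by
        rw [hcen]
        simp [hi]
      rw [h5, R2, W3, F2 _ hU1S, hi]
    · have hr := eS i hi
      have h5 : cen i = ((e i).1 - a + 1).toNat := by
        rw [hcen]
        simp [hi]
      have h6 := (mS _).1 hr
      rw [h5, R1 _ (by omega)]
      have h7 : a + (((e i).1 - a + 1).toNat : ℤ) - 1 = (e i).1 := by omega
      rw [h7, F1 _ hr]
  have hcard : ∀ i, ((Icc 1 (A + W.length)).filter fun n => own n = i).card = m i + 1 := by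
    intro i
    rw [← he i]
    show _ = g (e i).1 + 1
    by_cases hi : (e i).1 = U1
    · have h5 : g (e i).1 = 2 := by
        rw [hg, hi]
        simp
      have h6 : (Icc 1 (A + W.length)).filter (fun n => own n = i) =
          {(U1 - a + 1).toNat, (U2 - a + 1).toNat, A + 1 + w1.length} := by
        ext n
        rw [mem_filter, mem_Icc, own_iff, hi, mem_insert, mem_insert, mem_singleton]
        constructor
        · rintro ⟨⟨g1, g2⟩, g3⟩
          by_cases hn : n ≤ A
          · rw [R1 n hn] at g3
            have g4 : (a + n - 1 : ℤ) ∉ S := by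
              intro g4
              rw [F1 _ g4] at g3
              rw [g3] at g4
              exact hU1S g4
            rw [mS] at g4
            have g5 : a ≤ a + (n : ℤ) - 1 ∧ a + (n : ℤ) - 1 ≤ b := by omega
            have g6 : ¬ (a + (n : ℤ) - 1 ≠ U1 ∧ a + (n : ℤ) - 1 ≠ U2) := fun g7 => g4 ⟨g5, g7⟩
            by_cases g8 : a + (n : ℤ) - 1 = U1
            · left; omega
            · right; left
              have g9 : a + (n : ℤ) - 1 = U2 := by
                by_contra g9
                exact g6 ⟨g8, g9⟩
              omega
          · right; right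
            obtain ⟨j, rfl⟩ : ∃ j, n = A + 1 + j := ⟨n - (A + 1), by omega⟩
            rw [R2] at g3
            by_contra g4
            have g5 := W4 j (by omega) (by omega)
            rw [F1 _ g5] at g3
            rw [g3] at g5
            exact hU1S g5
        · rintro (rfl | rfl | rfl)
          · refine ⟨by omega, ?_⟩
            rw [R1 _ (by omega)]
            have h7 : a + ((U1 - a + 1).toNat : ℤ) - 1 = U1 := by omega
            rw [h7, F2 _ hU1S]
          · refine ⟨by omega, ?_⟩
            rw [R1 _ (by omega)]
            have h7 : a + ((U2 - a + 1).toNat : ℤ) - 1 = U2 := by omega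
            rw [h7, F2 _ hU2S]
          · refine ⟨by omega, ?_⟩
            rw [R2, W3, F2 _ hU1S]
      rw [h5, h6, card_insert_of_notMem, card_pair]
      · omega
      · rw [mem_insert, mem_singleton]
        omega
    · have hr := eS i hi
      have hr1 := (mS _).1 hr
      have h5 : g (e i).1 = W.count (e i).1 := by
        rw [hg, hW]
        simp only [hi, if_false]
        rw [List.count_append, List.count_append, List.count_cons_of_ne (Ne.symm hi)]
      have h6 : (Icc 1 (A + W.length)).filter (fun n => own n = i) =
          insert ((e i).1 - a + 1).toNat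
            (((range W.length).filter fun j => W.getD j U1 = (e i).1).image fun j => A + 1 + j) := by
        ext n
        rw [mem_filter, mem_Icc, own_iff, mem_insert, mem_image]
        constructor
        · rintro ⟨⟨g1, g2⟩, g3⟩
          by_cases hn : n ≤ A
          · left
            rw [R1 n hn] at g3
            by_cases g4 : (a + n - 1 : ℤ) ∈ S
            · rw [F1 _ g4] at g3
              omega
            · rw [F2 _ g4] at g3
              exact absurd g3.symm hi
          · right
            obtain ⟨j, rfl⟩ : ∃ j, n = A + 1 + j := ⟨n - (A + 1), by omega⟩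
            refine ⟨j, ?_, rfl⟩
            rw [mem_filter, mem_range]
            rw [R2] at g3
            refine ⟨by omega, ?_⟩
            by_cases g4 : W.getD j U1 ∈ S
            · rw [F1 _ g4] at g3
              exact g3
            · rw [F2 _ g4] at g3
              exact absurd g3.symm hi
        · rintro (rfl | ⟨j, g1, rfl⟩)
          · refine ⟨by omega, ?_⟩
            rw [R1 _ (by omega)]
            have h7 : a + (((e i).1 - a + 1).toNat : ℤ) - 1 = (e i).1 := by omega
            rw [h7, F1 _ hr]
          · rw [mem_filter, mem_range] at g1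
            refine ⟨by omega, ?_⟩
            rw [R2, g1.2, F1 _ hr]
      rw [h5, h6, card_insert_of_notMem, card_image_of_injective, card_getD]
      · intro x y hxy
        have hxy' : A + 1 + x = A + 1 + y := hxy
        omega
      · rw [mem_image]
        rintro ⟨j, -, g1⟩
        omega
  have hp : A + W.length = ∑ i, (m i + 1) := by
    have h5 : (Icc 1 (A + W.length)).card =
        ∑ i, ((Icc 1 (A + W.length)).filter fun n => own n = i).card :=
      card_eq_sum_card_fiberwise (f := own) (t := univ) (fun n _ => mem_coe.2 (mem_univ _))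
    rw [Nat.card_Icc] at h5
    rw [← Finset.sum_congr rfl fun i _ => hcard i, ← h5]
    omega
  have ht : t = S.card + 1 := by
    have h5 := Fintype.card_congr e
    rw [Fintype.card_fin, Fintype.card_coe, card_insert_of_notMem hU1S] at h5
    exact h5
  have hsum : ∑ i, m i = w1.length + w2.length + 2 := by
    have h5 : ∑ i, (m i + 1) = ∑ i, m i + t := by
      rw [sum_add_distrib]
      simp
    omega
  have hlo : a ≤ lo := by
    rcases hcov lo le_rfl (by omega) with h | h | h | h
    · obtain ⟨j, c, h5, h6⟩ := h
      have h7 := hw c (List.mem_append_left _ (List.mem_of_getElem? h5))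
      omega
    · omega
    · omega
    · obtain ⟨j, c, h5, h6⟩ := h
      have h7 := hw c (List.mem_append_right _ (List.mem_of_getElem? h5))
      omega
  obtain ⟨s, hs⟩ : ∃ s : ℕ, (s : ℤ) = lo + A + 2 - a := ⟨(lo + A + 2 - a).toNat, by omega⟩
  have cen_le : ∀ i, 1 ≤ cen i ∧ cen i ≤ A + W.length ∧
      (cen i ≤ A ↔ (e i).1 ≠ U1) := by
    intro i
    by_cases hi : (e i).1 = U1
    · have h5 : cen i = A + 1 + w1.length := by
        rw [hcen]
        simp [hi]
      rw [h5]
      refine ⟨by omega, by omega, ?_⟩
      constructor
      · intro h6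
        omega
      · intro h6
        exact absurd hi h6
    · have hr := (mS _).1 (eS i hi)
      have h5 : cen i = ((e i).1 - a + 1).toNat := by
        rw [hcen]
        simp [hi]
      rw [h5]
      refine ⟨by omega, by omega, ?_⟩
      constructor
      · intro _
        exact hi
      · intro _
        omega
  have eown : ∀ n, (e (own n)).1 = (F (R n)).1 := fun n => ((own_iff n (own n)).1 rfl).symm
  have cen_own1 : ∀ n, R n ∈ S → cen (own n) = (R n - a + 1).toNat := by
    intro n hn
    have h5 : (e (own n)).1 = R n := by rw [eown, F1 _ hn]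
    have h6 : R n ≠ U1 := ((mS _).1 hn).2.1
    rw [hcen]
    simp only [h5, h6, if_false]
  have cen_own2 : ∀ n, R n ∉ S → cen (own n) = A + 1 + w1.length := by
    intro n hn
    have h5 : (e (own n)).1 = U1 := by rw [eown, F2 _ hn]
    rw [hcen]
    simp only [h5, if_true]
  have L : Lab m (A + W.length) A s own cen := by
    apply lab_of_cov hp (by omega) (fun i => (cen_le i).1) (fun i => (cen_le i).2.1) own_cen hcard
    · intro n g1 g2 g3
      by_cases hn : n ≤ A
      · by_cases hRn : R n ∈ S
        · exfalso
          apply g3
          rw [cen_own1 n hRn, R1 n hn]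
          omega
        · rw [cen_own2 n hRn]
          constructor
          · intro _
            omega
          · intro _
            exact hn
      · obtain ⟨j, rfl⟩ : ∃ j, n = A + 1 + j := ⟨n - (A + 1), by omega⟩
        by_cases hRn : R (A + 1 + j) ∈ S
        · rw [cen_own1 _ hRn]
          have h5 := (mS _).1 hRn
          constructor
          · intro _
            omega
          · intro h6
            exfalso
            apply h6
            omega
        · exfalso
          apply g3
          rw [cen_own2 _ hRn]
          by_contra h6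
          apply hRn
          rw [R2]
          exact W4 j (by omega) (by omega)
    · intro x g1 g2
      rw [hsum] at g2
      rcases hcov (x - (A + 2 - a)) (by omega) (by omega) with h | h | h | h
      · obtain ⟨j, c, h5, h6⟩ := h
        have h7 := W1 j c h5
        have h8 : c ∈ S := wS c (List.mem_append_left _ (List.mem_of_getElem? h5))
        have h9 := (mS c).1 h8
        have h10 : R (A + 1 + j) = c := by rw [R2, h7.1]
        have h11 : cen (own (A + 1 + j)) = (c - a + 1).toNat := by
          rw [cen_own1 _ (by rw [h10]; exact h8), h10]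
        refine ⟨A + 1 + j, ⟨by omega, by omega⟩, ?_, ?_⟩
        · rw [h11]
          omega
        · rw [h11]
          omega
      · have h5 : R (U1 - a + 1).toNat = U1 := by
          rw [R1 _ (by omega)]
          omega
        have h6 : cen (own (U1 - a + 1).toNat) = A + 1 + w1.length :=
          cen_own2 _ (by rw [h5]; exact hU1S)
        refine ⟨(U1 - a + 1).toNat, ⟨by omega, by omega⟩, ?_, ?_⟩
        · rw [h6]
          omega
        · rw [h6]
          omega
      · have h5 : R (U2 - a + 1).toNat = U2 := by
          rw [R1 _ (by omega)]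
          omega
        have h6 : cen (own (U2 - a + 1).toNat) = A + 1 + w1.length :=
          cen_own2 _ (by rw [h5]; exact hU2S)
        refine ⟨(U2 - a + 1).toNat, ⟨by omega, by omega⟩, ?_, ?_⟩
        · rw [h6]
          omega
        · rw [h6]
          omega
      · obtain ⟨j, c, h5, h6⟩ := h
        have h7 := W2 j c h5
        have h8 : c ∈ S := wS c (List.mem_append_right _ (List.mem_of_getElem? h5))
        have h9 := (mS c).1 h8
        have h10 : R (A + 1 + (w1.length + 1 + j)) = c := by rw [R2, h7.1]
        have h11 : cen (own (A + 1 + (w1.length + 1 + j))) = (c - a + 1).toNat := by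
          rw [cen_own1 _ (by rw [h10]; exact h8), h10]
        refine ⟨A + 1 + (w1.length + 1 + j), ⟨by omega, by omega⟩, ?_, ?_⟩
        · rw [h11]
          omega
        · rw [h11]
          omega
  exact L.toSSEM

end Pool.Agent.SFT
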