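import Pool.Agent.SFT.F1
import Pool.Agent.SFT.F2
import Pool.Agent.SFT.Lbl

/-!
# Star forests with a two-star (MP_fb2988_co): the two types of labelings
-/

set_option autoImplicit false

open Finset

namespace Pool.Agent.SFT

open Pool.Agent.StarF

/-- type F1 -/
theorem f1_ssem {t : ℕ} (m : Fin t → ℕ) (x y u : ℕ → ℕ) (i k z : ℕ) (hz : z ≤ x i)
    (h1 : ∀ j, j < i → x (j + 1) ≤ y j) (h2 : ∀ j, j + 1 < i → y (j + 1) ≤ x j)
    (hm : Multiset.map m univ.val = 2 ::ₘ ({1} + {z} + ∑ j ∈ range (i + 1), ({x j + 1} : Multiset ℕ) +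
      ∑ j ∈ range i, ({y j + 1} : Multiset ℕ) +
      ∑ c ∈ range k, (({u c + 1} : Multiset ℕ) + {u c + 1}))) : IsSSEM (starForest m) := by
  obtain ⟨L, R0, hL, hR, hLR⟩ := ladder x y i (x i - z) 0
    (fun j hj => by
      have := h1 j (by omega)
      rw [hj] at this
      omega)
    (fun j hj => ⟨h1 j (by omega), h2 j hj⟩)
  set R : ℕ → ℕ := fun j => if j ≤ i then R0 j else if j = i + 1 then z else 0 with hRdef
  set v : ℕ → ℕ := fun c => u (c - (i + 3)) with hv
  have r1 : R (i + 1) = z := by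
    rw [hRdef]; simp
  have r2 : R i = 0 := by
    rw [hRdef]; simp [hR]
  have r3 : R (i + 2) = 0 := by
    rw [hRdef]; simp
  have hx : ∀ j, j ≤ i → L j + R (j + 1) = x j := by
    intro j hj
    by_cases h : j = i
    · subst h
      rw [r1, hL]
      omega
    · have e : R (j + 1) = R0 (j + 1) := by
        rw [hRdef]
        simp only
        rw [if_pos (by omega)]
      rw [e]
      exact (hLR j (by omega)).1
  have hy : ∀ j, j < i → L (j + 1) + R j = y j := by
    intro j hj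
    have e : R j = R0 j := by
      rw [hRdef]
      simp only
      rw [if_pos (by omega)]
    rw [e]
    exact (hLR j (by omega)).2
  refine ssem_of_words m (-((i : ℤ) + 1 + k)) ((i : ℤ) + 3 + k) ((i : ℤ) + 1) ((i : ℤ) + 3)
    (by omega) (by omega) (by omega) (by omega) (by omega) (fl L i) ((fr R v i k).map (· + 1))
    (f1_mem L R v i k r2 r3) 0 ?_ ?_
  · intro w hw hw'
    exact cover_of_tr (fl_tr L i) (fun n z hz => double_up i n z hz) (fr_tr R v i k) w hw hw'
  · rw [f1_sizes L R v x y i k z r1 r2 r3 hx hy, hm]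
    congr 2
    apply sum_congr rfl
    intro c _
    have e : i + 3 + c - (i + 3) = c := by omega
    rw [hv]
    simp only
    rw [e]

/-- type F2 -/
theorem f2_ssem {t : ℕ} (m : Fin t → ℕ) (L R : ℕ → ℕ) (n l : ℕ) (hl : l ≤ n)
    (hR : ∀ c, 1 ≤ c → c ≤ l → 1 ≤ R c) (hR0 : ∀ c, l < c → R c = 0)
    (hm : Multiset.map m univ.val = 2 ::ₘ ({L 0 + R 1} + ∑ j ∈ range (n + 1),
      (({L (j + 1) + R j + 2} : Multiset ℕ) + {L (j + 1) + R (j + 2) + 2}))) :
    IsSSEM (starForest m) := by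
  refine ssem_of_words m (-((n : ℤ) + 1)) ((n : ℤ) + 3) ((n : ℤ) + 2) ((n : ℤ) + 3)
    (by omega) (by omega) (by omega) (by omega) (by omega) (gl L n) ((gr R n l).map (· + 1))
    ?_ 0 ?_ ?_
  · intro r hr
    have := f2_mem L R n l hl hR r hr
    omega
  · intro w hw hw'
    refine cover_of_tr (gl_tr L n) (fun e z hz => ?_) (gr_tr R n l) w hw hw'
    have := e0_step ((n + 1 : ℕ) : ℤ) e z hz
    push_cast at this
    have e1 : ((n : ℤ) + 1 + 1) = (n : ℤ) + 2 := by ring
    have e2 : ((n : ℤ) + 1 + 2) = (n : ℤ) + 3 := by ring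
    rwa [e1, e2] at this
  · rw [f2_sizes L R n l hl hR hR0, hm]

end Pool.Agent.SFT
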